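import Pool.Agent.R109.GT.DD

/-! Basic facts on generalized Takagi functions (node formulas, modulus of continuity). -/

open MeasureTheory Set Filter Topology
open scoped ENNReal

namespace Pool.Agent.L0h88.TK

open R109.GT hiding slope

/-- the sign array seen from the dyadic node `(n,j)` -/
def shf (w : ℕ → ℤ → ℤ) (n : ℕ) (j : ℤ) : ℕ → ℤ → ℤ := fun k i => w (n + k) (j * 2 ^ k + i)

theorem sgn_shf {w : ℕ → ℤ → ℤ} (hw : Sgn w) (n : ℕ) (j : ℤ) : Sgn (shf w n j) :=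
  fun k i => hw (n + k) (j * 2 ^ k + i)

theorem sgn_tail {w : ℕ → ℤ → ℤ} (hw : Sgn w) (n : ℕ) : Sgn (fun m => w (n + m)) :=
  fun k i => hw (n + k) i

theorem slope_even (w : ℕ → ℤ → ℤ) (n : ℕ) (j : ℤ) :
    R109.GT.slope w (n + 1) (2 * j) = R109.GT.slope w n j + w n j := by
  have h1 : (2 * j) / 2 = j := by omega
  have h2 : (2 * j) % 2 = 0 := by omega
  simp only [R109.GT.slope, h1, h2, if_true]
  ring

theorem slope_odd (w : ℕ → ℤ → ℤ) (n : ℕ) (j : ℤ) :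
    R109.GT.slope w (n + 1) (2 * j + 1) = R109.GT.slope w n j - w n j := by
  have h1 : (2 * j + 1) / 2 = j := by omega
  have h2 : ¬ ((2 * j + 1) % 2 = 0) := by omega
  simp only [R109.GT.slope, h1, h2, if_false]
  ring

theorem val_even (w : ℕ → ℤ → ℤ) (n : ℕ) (j : ℤ) :
    val w (n + 1) (2 * j) = 2 * val w n j := by
  have h1 : (2 * j) / 2 = j := by omega
  have h2 : (2 * j) % 2 = 0 := by omega
  simp only [val, h1, h2, if_true]
  ring

theorem val_odd (w : ℕ → ℤ → ℤ) (n : ℕ) (j : ℤ) :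
    val w (n + 1) (2 * j + 1) = 2 * val w n j + R109.GT.slope w n j + w n j := by
  have h1 : (2 * j + 1) / 2 = j := by omega
  have h2 : ¬ ((2 * j + 1) % 2 = 0) := by omega
  simp only [val, h1, h2, if_false]
  ring

theorem val_add (w : ℕ → ℤ → ℤ) (n : ℕ) : ∀ j : ℤ, val w n (j + 1) = val w n j + R109.GT.slope w n j := by
  induction n with
  | zero => intro j; simp [val, R109.GT.slope]
  | succ n ih =>
    intro j
    rcases Int.even_or_odd' j with ⟨i, rfl | rfl⟩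
    · rw [val_even, val_odd, slope_even]; ring
    · have : 2 * i + 1 + 1 = 2 * (i + 1) := by ring
      rw [this, val_even, val_odd, slope_odd, ih]; ring

theorem phi_int (m : ℤ) : phi (m : ℝ) = 0 := by
  simp [phi]

theorem phi_int_add (m : ℤ) (x : ℝ) : phi (m + x) = phi x := by
  unfold phi
  rw [add_comm, round_add_intCast]
  push_cast
  congr 1
  ring

theorem tak_int (w : ℕ → ℤ → ℤ) (m : ℤ) : tak w (m : ℝ) = 0 := by
  unfold tak
  have : ∀ n : ℕ, (w n ⌊(2:ℝ) ^ n * (m:ℝ)⌋ : ℝ) * phi ((2:ℝ) ^ n * (m:ℝ)) / 2 ^ n = 0 := by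
    intro n
    have h : (2:ℝ) ^ n * (m:ℝ) = (((2:ℤ) ^ n * m : ℤ) : ℝ) := by push_cast; ring
    rw [h, phi_int]; simp
  simp only [this, tsum_zero]

theorem tak_tail_add (w : ℕ → ℤ → ℤ) (n : ℕ) (j : ℤ) (u : ℝ) :
    tak (fun m => w (n + m)) (j + u) = tak (shf w n j) u := by
  unfold tak
  apply tsum_congr
  intro k
  have h : (2:ℝ) ^ k * ((j:ℝ) + u) = ((j * 2 ^ k : ℤ) : ℝ) + (2:ℝ) ^ k * u := by push_cast; ring
  rw [h, phi_int_add, Int.floor_intCast_add]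
  rfl

/-- value at dyadic points -/
theorem tak_dyadic {w : ℕ → ℤ → ℤ} (hw : Sgn w) (n : ℕ) (j : ℤ) :
    tak w ((j:ℝ) / 2 ^ n) = (val w n j : ℝ) / 2 ^ n := by
  have h2 : (2:ℝ) ^ n ≠ 0 := by positivity
  have h := tak_eq w hw n ((j:ℝ) / 2 ^ n)
  have h1 : (2:ℝ) ^ n * ((j:ℝ) / 2 ^ n) = (j:ℝ) := by field_simp
  rw [h1, Int.floor_intCast, tak_int] at h
  rw [h]
  congr 1
  ring

theorem tak_node {w : ℕ → ℤ → ℤ} (hw : Sgn w) (n : ℕ) (j : ℤ) (x : ℝ)
    (hx : x ∈ Icc ((j:ℝ) / 2 ^ n) (((j:ℝ) + 1) / 2 ^ n)) :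
    tak w x = ((val w n j : ℝ) + (R109.GT.slope w n j : ℝ) * ((2:ℝ) ^ n * x - j)
      + tak (fun m => w (n + m)) ((2:ℝ) ^ n * x)) / 2 ^ n := by
  have h2 : (0:ℝ) < 2 ^ n := by positivity
  rcases eq_or_lt_of_le hx.2 with h | h
  · have h1 : (2:ℝ) ^ n * x = ((j + 1 : ℤ) : ℝ) := by rw [h]; push_cast; field_simp
    rw [h1, tak_int]
    have h3 := tak_dyadic hw n (j + 1)
    have h4 : (((j + 1 : ℤ) : ℝ)) / 2 ^ n = x := by rw [h]; push_cast; ring
    rw [h4, val_add] at h3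
    rw [h3]
    push_cast
    congr 1
    ring
  · have hf : ⌊(2:ℝ) ^ n * x⌋ = j := by
      rw [Int.floor_eq_iff]
      have a := hx.1
      rw [div_le_iff₀ h2] at a
      rw [lt_div_iff₀ h2] at h
      constructor <;> linarith
    have h3 := tak_eq w hw n x
    rw [S, hf] at h3
    exact h3

theorem abs_val_le {w : ℕ → ℤ → ℤ} (hw : Sgn w) (n : ℕ) (j : ℤ) : |val w n j| ≤ 2 ^ n := by
  have h2 : (0:ℝ) < 2 ^ n := by positivity
  have h := bound w hw ((j:ℝ) / 2 ^ n)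
  rw [tak_dyadic hw, abs_div, abs_of_pos h2, div_le_one h2] at h
  exact_mod_cast h

/-- one term of the series is `1`-Lipschitz -/
theorem term_diff {w : ℕ → ℤ → ℤ} (hw : Sgn w) (m : ℕ) (x y : ℝ) :
    |(w m ⌊(2:ℝ) ^ m * x⌋ : ℝ) * phi ((2:ℝ) ^ m * x) / 2 ^ m
      - (w m ⌊(2:ℝ) ^ m * y⌋ : ℝ) * phi ((2:ℝ) ^ m * y) / 2 ^ m| ≤ |x - y| := by
  have h2 : (0:ℝ) < 2 ^ m := by positivity
  rw [← sub_div, abs_div, abs_of_pos h2, div_le_iff₀ h2]
  rcases le_total x y with h | h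
  · have := term_lip (w m) (hw m) ((2:ℝ) ^ m * x) ((2:ℝ) ^ m * y) (by gcongr)
    refine this.trans ?_
    rw [abs_sub_comm, abs_of_nonneg (by linarith : (0:ℝ) ≤ y - x)]
    apply le_of_eq; ring
  · have := term_lip (w m) (hw m) ((2:ℝ) ^ m * y) ((2:ℝ) ^ m * x) (by gcongr)
    rw [abs_sub_comm]
    refine this.trans ?_
    rw [abs_of_nonneg (by linarith : (0:ℝ) ≤ x - y)]
    apply le_of_eq; ring

theorem part_diff {w : ℕ → ℤ → ℤ} (hw : Sgn w) (q : ℕ) (x y : ℝ) :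
    |part w q x - part w q y| ≤ q * |x - y| := by
  unfold part
  rw [← Finset.sum_sub_distrib]
  refine (Finset.abs_sum_le_sum_abs _ _).trans ?_
  refine (Finset.sum_le_sum fun m _ => term_diff hw m x y).trans ?_
  simp

theorem tak_diff {w : ℕ → ℤ → ℤ} (hw : Sgn w) (q : ℕ) (x y : ℝ) :
    |tak w x - tak w y| ≤ q * |x - y| + 2 / 2 ^ q := by
  have h2 : (0:ℝ) < 2 ^ q := by positivity
  rw [split w hw q x, split w hw q y]
  have h1 := part_diff hw q x y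
  have h3 := bound _ (sgn_tail hw q) ((2:ℝ) ^ q * x)
  have h4 := bound _ (sgn_tail hw q) ((2:ℝ) ^ q * y)
  set a := tak (fun m => w (q + m)) ((2:ℝ) ^ q * x)
  set b := tak (fun m => w (q + m)) ((2:ℝ) ^ q * y)
  have e : part w q x + a / 2 ^ q - (part w q y + b / 2 ^ q) =
      (part w q x - part w q y) + (a - b) / 2 ^ q := by ring
  rw [e]
  refine (abs_add_le _ _).trans (add_le_add h1 ?_)
  rw [abs_div, abs_of_pos h2]
  gcongr
  rw [abs_le] at h3 h4 ⊢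
  constructor <;> linarith [h3.1, h3.2, h4.1, h4.2]

end Pool.Agent.L0h88.TK
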