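import Pool.Agent.L0h88.TK.Basic

/-! Combinatorics of the dyadic tree of slopes. -/

open MeasureTheory Set Filter Topology
open scoped ENNReal

namespace Pool.Agent.L0h88.TK

open R109.GT hiding slope
open scoped Classical

/-- nodes of level `n` in `[0,1)` -/
noncomputable def nd (n : ℕ) : Finset ℤ := Finset.Ico 0 (2 ^ n)

theorem sum_two {M : Type*} [AddCommMonoid M] (φ : ℤ → M) (N : ℕ) :
    ∑ j ∈ Finset.Ico (0:ℤ) (2 * (N:ℤ)), φ j = ∑ j ∈ Finset.Ico (0:ℤ) (N:ℤ), (φ (2 * j) + φ (2 * j + 1)) := by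
  induction N with
  | zero => simp
  | succ N ih =>
    have e1 : Finset.Ico (0:ℤ) (2 * ((N + 1 : ℕ):ℤ)) =
        insert (2 * (N:ℤ) + 1) (insert (2 * (N:ℤ)) (Finset.Ico (0:ℤ) (2 * (N:ℤ)))) := by
      ext x; simp only [Finset.mem_insert, Finset.mem_Ico]; push_cast; omega
    have e2 : Finset.Ico (0:ℤ) ((N + 1 : ℕ):ℤ) = insert (N:ℤ) (Finset.Ico (0:ℤ) (N:ℤ)) := by
      ext x; simp only [Finset.mem_insert, Finset.mem_Ico]; push_cast; omega
    rw [e1, e2, Finset.sum_insert, Finset.sum_insert, Finset.sum_insert, ih]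
    · abel
    · simp
    · simp
    · simp only [Finset.mem_insert, Finset.mem_Ico]; omega

theorem sum_nd_succ {M : Type*} [AddCommMonoid M] (φ : ℤ → M) (n : ℕ) :
    ∑ j ∈ nd (n + 1), φ j = ∑ j ∈ nd n, (φ (2 * j) + φ (2 * j + 1)) := by
  have h := sum_two φ (2 ^ n)
  unfold nd
  rw [pow_succ, mul_comm ((2:ℤ) ^ n) 2]
  push_cast at h
  exact h

theorem sum_nd_zero {M : Type*} [AddCommMonoid M] (φ : ℤ → M) : ∑ j ∈ nd 0, φ j = φ 0 := by
  have : nd 0 = {0} := by unfold nd; ext x; simp only [pow_zero, Finset.mem_Ico, Finset.mem_singleton]; omega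
  rw [this, Finset.sum_singleton]

theorem card_nd (n : ℕ) : (nd n).card = 2 ^ n := by
  unfold nd
  rw [Int.card_Ico, sub_zero]
  have : ((2:ℤ) ^ n) = ((2 ^ n : ℕ) : ℤ) := by push_cast; rfl
  rw [this, Int.toNat_natCast]

theorem sum_sq {w : ℕ → ℤ → ℤ} (hw : Sgn w) (n : ℕ) :
    ∑ j ∈ nd n, (R109.GT.slope w n j) ^ 2 = (n : ℤ) * 2 ^ n := by
  induction n with
  | zero => rw [sum_nd_zero]; simp [R109.GT.slope]
  | succ n ih =>
    rw [sum_nd_succ]
    have : ∀ j ∈ nd n, (R109.GT.slope w (n + 1) (2 * j)) ^ 2 + (R109.GT.slope w (n + 1) (2 * j + 1)) ^ 2 =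
        2 * (R109.GT.slope w n j) ^ 2 + 2 := by
      intro j _
      rw [slope_even, slope_odd]
      have h1 : (w n j) ^ 2 = 1 := by rcases hw n j with h | h <;> rw [h] <;> norm_num
      linear_combination 2 * h1
    rw [Finset.sum_congr rfl this, Finset.sum_add_distrib, ← Finset.mul_sum, ih,
      Finset.sum_const, card_nd]
    push_cast
    rw [nsmul_eq_mul]
    push_cast
    ring

theorem sum_four {w : ℕ → ℤ → ℤ} (hw : Sgn w) (n : ℕ) :
    ∑ j ∈ nd n, (R109.GT.slope w n j) ^ 4 = (3 * (n:ℤ) ^ 2 - 2 * n) * 2 ^ n := by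
  induction n with
  | zero => rw [sum_nd_zero]; simp [R109.GT.slope]
  | succ n ih =>
    rw [sum_nd_succ]
    have : ∀ j ∈ nd n, (R109.GT.slope w (n + 1) (2 * j)) ^ 4 + (R109.GT.slope w (n + 1) (2 * j + 1)) ^ 4 =
        2 * (R109.GT.slope w n j) ^ 4 + (12 * (R109.GT.slope w n j) ^ 2 + 2) := by
      intro j _
      rw [slope_even, slope_odd]
      have h1 : (w n j) ^ 2 = 1 := by rcases hw n j with h | h <;> rw [h] <;> norm_num
      linear_combination (12 * (R109.GT.slope w n j) ^ 2 + 2 * (w n j) ^ 2 + 2) * h1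
    rw [Finset.sum_congr rfl this, Finset.sum_add_distrib, Finset.sum_add_distrib,
      ← Finset.mul_sum, ← Finset.mul_sum, ih, sum_sq hw, Finset.sum_const, card_nd]
    push_cast
    rw [nsmul_eq_mul]
    push_cast
    ring

/-- the node `(n,j)` covers the unit cell `c` -/
def cov (w : ℕ → ℤ → ℤ) (n : ℕ) (j c : ℤ) : Prop :=
  (val w n j ≤ c ∧ c < val w n j + R109.GT.slope w n j) ∨ (val w n j + R109.GT.slope w n j ≤ c ∧ c < val w n j)

/-- some ancestor or the node itself has slope larger than `H` in absolute value -/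
def big (w : ℕ → ℤ → ℤ) (H : ℤ) : ℕ → ℤ → Prop
  | 0, j => H < |R109.GT.slope w 0 j|
  | n + 1, j => big w H n (j / 2) ∨ H < |R109.GT.slope w (n + 1) j|

/-- the zero-slope node `(n,j)` gives birth to two nodes covering the cell `c'` -/
def birth (w : ℕ → ℤ → ℤ) (n : ℕ) (j c' : ℤ) : Prop :=
  R109.GT.slope w n j = 0 ∧ ((w n j = 1 ∧ c' = 2 * val w n j) ∨ (w n j = -1 ∧ c' = 2 * val w n j - 1))

theorem big_even (w : ℕ → ℤ → ℤ) (H : ℤ) (n : ℕ) (j : ℤ) :
    big w H (n + 1) (2 * j) ↔ big w H n j ∨ H < |R109.GT.slope w (n + 1) (2 * j)| := by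
  have h1 : (2 * j) / 2 = j := by omega
  rw [big, h1]

theorem big_odd (w : ℕ → ℤ → ℤ) (H : ℤ) (n : ℕ) (j : ℤ) :
    big w H (n + 1) (2 * j + 1) ↔ big w H n j ∨ H < |R109.GT.slope w (n + 1) (2 * j + 1)| := by
  have h1 : (2 * j + 1) / 2 = j := by omega
  rw [big, h1]

theorem le_of_not_big (w : ℕ → ℤ → ℤ) (H : ℤ) (n : ℕ) (j : ℤ) (h : ¬ big w H n j) :
    |R109.GT.slope w n j| ≤ H := by
  cases n with
  | zero => rw [big] at h; exact not_lt.mp h
  | succ n => rw [big] at h; push Not at h; exact h.2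

theorem cov_left {w : ℕ → ℤ → ℤ} (hw : Sgn w) (n : ℕ) (j c : ℤ) (h : cov w (n + 1) (2 * j) c) :
    cov w n j (c / 2) ∧ ¬ cov w (n + 1) (2 * j + 1) c ∨ birth w n j c := by
  unfold cov birth at *
  rw [slope_even, val_even] at h
  rw [slope_odd, val_odd]
  rcases hw n j with h1 | h1 <;> omega

theorem cov_right {w : ℕ → ℤ → ℤ} (hw : Sgn w) (n : ℕ) (j c : ℤ) (h : cov w (n + 1) (2 * j + 1) c) :
    cov w n j (c / 2) ∧ ¬ cov w (n + 1) (2 * j) c ∨ birth w n j c := by
  unfold cov birth at *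
  rw [slope_odd, val_odd] at h
  rw [slope_even, val_even]
  rcases hw n j with h1 | h1 <;> omega

theorem birth_cov {w : ℕ → ℤ → ℤ} (n : ℕ) (j c : ℤ) (h : birth w n j c) :
    cov w (n + 1) (2 * j) c ∧ cov w (n + 1) (2 * j + 1) c ∧
      |R109.GT.slope w (n + 1) (2 * j)| = 1 ∧ |R109.GT.slope w (n + 1) (2 * j + 1)| = 1 := by
  unfold cov birth at *
  rw [slope_even, val_even, slope_odd, val_odd]
  obtain ⟨h0, h1⟩ := h
  rw [h0]
  rcases h1 with ⟨h1, h2⟩ | ⟨h1, h2⟩ <;> rw [h1] <;> refine ⟨?_, ?_, ?_, ?_⟩ <;> first | omega | norm_num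

theorem ite_and_le (p q : Prop) {_ : Decidable (p ∧ q)} [Decidable p] :
    (if p ∧ q then (1:ℝ) else 0) ≤ if p then 1 else 0 := by
  by_cases hp : p <;> by_cases hq : q <;> simp [hp, hq]

/-- one step of the recursion for the number of non-big covering nodes -/
theorem step_count {w : ℕ → ℤ → ℤ} (hw : Sgn w) (H : ℤ) (n : ℕ) (j c : ℤ) :
    (if cov w (n + 1) (2 * j) c ∧ ¬ big w H (n + 1) (2 * j) then (1:ℝ) else 0) +
      (if cov w (n + 1) (2 * j + 1) c ∧ ¬ big w H (n + 1) (2 * j + 1) then (1:ℝ) else 0) ≤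
    (if cov w n j (c / 2) ∧ ¬ big w H n j then (1:ℝ) else 0) + 2 * (if birth w n j c then (1:ℝ) else 0) := by
  have hL := cov_left hw n j c
  have hR := cov_right hw n j c
  rw [big_even, big_odd]
  by_cases hb : big w H n j
  · simp only [hb, true_or, not_true_eq_false, and_false, if_false]
    split_ifs <;> norm_num
  · refine (add_le_add (ite_and_le _ _) (ite_and_le _ _)).trans ?_
    simp only [hb, not_false_eq_true, and_true]
    by_cases a : cov w (n + 1) (2 * j) c <;> by_cases b : cov w (n + 1) (2 * j + 1) c <;>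
      by_cases d : birth w n j c <;> by_cases e : cov w n j (c / 2) <;>
      simp [a, b, d, e] at hL hR ⊢ <;> norm_num

theorem sum_big_nonneg {w : ℕ → ℤ → ℤ} (hw : Sgn w) (H : ℤ) (hH : 0 ≤ H) (n : ℕ) :
    0 ≤ ∑ j ∈ nd n, (if big w H n j then (R109.GT.slope w n j) ^ 2 - H ^ 2 else 0) := by
  induction n with
  | zero =>
    rw [sum_nd_zero]
    have : ¬ big w H 0 0 := by rw [big]; simp [R109.GT.slope, hH]
    rw [if_neg this]
  | succ n ih =>
    rw [sum_nd_succ]
    refine le_trans (mul_nonneg (by norm_num : (0:ℤ) ≤ 2) ih) ?_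
    rw [Finset.mul_sum]
    refine Finset.sum_le_sum fun j _ => ?_
    rw [big_even, big_odd]
    have hsq : ∀ s : ℤ, H < |s| → 0 ≤ s ^ 2 - H ^ 2 := by
      intro s hs
      rw [← sq_abs s]
      nlinarith [abs_nonneg s]
    by_cases hb : big w H n j
    · simp only [hb, true_or, if_true]
      rw [slope_even, slope_odd]
      have h1 : (w n j) ^ 2 = 1 := by rcases hw n j with h | h <;> rw [h] <;> norm_num
      nlinarith
    · simp only [hb, false_or, if_false, mul_zero]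
      apply add_nonneg
      · split_ifs with h
        · exact hsq _ h
        · exact le_rfl
      · split_ifs with h
        · exact hsq _ h
        · exact le_rfl

end Pool.Agent.L0h88.TK
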