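import Pool.Agent.L0h88.TK.Comb

/-! The combinatorial contradiction. -/

open MeasureTheory Set Filter Topology
open scoped ENNReal

namespace Pool.Agent.L0h88.TK

open R109.GT hiding slope
open scoped Classical

theorem abs_lower (x a : ℝ) (hx : 0 ≤ x) (ha : 0 < a) :
    (3 / 2) * x ^ 2 / a - (1 / 2) * x ^ 4 / a ^ 3 ≤ x := by
  have h : x - ((3 / 2) * x ^ 2 / a - (1 / 2) * x ^ 4 / a ^ 3) =
      x * ((x - a) ^ 2 * (x + 2 * a)) / (2 * a ^ 3) := by
    field_simp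
    ring
  have h2 : 0 ≤ x * ((x - a) ^ 2 * (x + 2 * a)) / (2 * a ^ 3) := by positivity
  linarith

theorem sum_sq_real {w : ℕ → ℤ → ℤ} (hw : Sgn w) (n : ℕ) :
    ∑ j ∈ nd n, ((|R109.GT.slope w n j| : ℤ) : ℝ) ^ 2 = (n : ℝ) * 2 ^ n := by
  have h := sum_sq hw n
  have h2 : ((∑ j ∈ nd n, (R109.GT.slope w n j) ^ 2 : ℤ) : ℝ) = (n : ℝ) * 2 ^ n := by rw [h]; push_cast; ring
  rw [← h2]
  push_cast
  refine Finset.sum_congr rfl fun j _ => ?_
  rw [sq_abs]

theorem sum_four_real {w : ℕ → ℤ → ℤ} (hw : Sgn w) (n : ℕ) :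
    ∑ j ∈ nd n, ((|R109.GT.slope w n j| : ℤ) : ℝ) ^ 4 = (3 * (n : ℝ) ^ 2 - 2 * n) * 2 ^ n := by
  have h := sum_four hw n
  have h2 : ((∑ j ∈ nd n, (R109.GT.slope w n j) ^ 4 : ℤ) : ℝ) = (3 * (n : ℝ) ^ 2 - 2 * n) * 2 ^ n := by
    rw [h]; push_cast; ring
  rw [← h2]
  push_cast
  refine Finset.sum_congr rfl fun j _ => ?_
  have : (|(R109.GT.slope w n j : ℝ)|) ^ 4 = (|(R109.GT.slope w n j : ℝ)| ^ 2) ^ 2 := by ring
  rw [this, sq_abs]
  ring

theorem sum_abs_lower {w : ℕ → ℤ → ℤ} (hw : Sgn w) (μ : ℕ) (hμ : 0 < μ) :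
    (2:ℝ) ^ (3 * μ ^ 2) * μ ≤ ∑ j ∈ nd (3 * μ ^ 2), ((|R109.GT.slope w (3 * μ ^ 2) j| : ℤ) : ℝ) := by
  set m := 3 * μ ^ 2 with hm
  have hμ' : (0:ℝ) < μ := by exact_mod_cast hμ
  have ha : (0:ℝ) < 3 * μ := by positivity
  have h1 : ∑ j ∈ nd m, ((3 / 2) * ((|R109.GT.slope w m j| : ℤ) : ℝ) ^ 2 / (3 * μ)
      - (1 / 2) * ((|R109.GT.slope w m j| : ℤ) : ℝ) ^ 4 / (3 * μ) ^ 3) ≤
      ∑ j ∈ nd m, ((|R109.GT.slope w m j| : ℤ) : ℝ) := by
    refine Finset.sum_le_sum fun j _ => abs_lower _ _ ?_ ha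
    exact_mod_cast abs_nonneg (R109.GT.slope w m j)
  refine le_trans ?_ h1
  rw [Finset.sum_sub_distrib, ← Finset.sum_div, ← Finset.sum_div, ← Finset.mul_sum,
    ← Finset.mul_sum, sum_sq_real hw, sum_four_real hw]
  have hmr : (m:ℝ) = 3 * (μ:ℝ) ^ 2 := by rw [hm]; push_cast; ring
  rw [hmr]
  have e : 3 / 2 * (3 * (μ:ℝ) ^ 2 * 2 ^ m) / (3 * μ) -
      1 / 2 * ((3 * (3 * (μ:ℝ) ^ 2) ^ 2 - 2 * (3 * (μ:ℝ) ^ 2)) * 2 ^ m) / (3 * μ) ^ 3 =
      2 ^ m * μ + 2 ^ m / (9 * μ) := by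
    field_simp
    ring
  rw [e]
  have : (0:ℝ) < 2 ^ m / (9 * μ) := by positivity
  linarith

theorem sum_big_upper {w : ℕ → ℤ → ℤ} (hw : Sgn w) (H : ℤ) (hH : 0 < H) (n : ℕ) :
    ∑ j ∈ nd n, (if big w H n j then ((|R109.GT.slope w n j| : ℤ) : ℝ) else 0) ≤ (n : ℝ) * 2 ^ n / H := by
  have hH' : (0:ℝ) < H := by exact_mod_cast hH
  have h0 := sum_big_nonneg hw H hH.le n
  have h0' : (0:ℝ) ≤ ∑ j ∈ nd n, (if big w H n j then ((|R109.GT.slope w n j| : ℤ) : ℝ) ^ 2 - (H:ℝ) ^ 2 else 0) := by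
    have : ((∑ j ∈ nd n, (if big w H n j then (R109.GT.slope w n j) ^ 2 - H ^ 2 else 0) : ℤ) : ℝ) =
        ∑ j ∈ nd n, (if big w H n j then ((|R109.GT.slope w n j| : ℤ) : ℝ) ^ 2 - (H:ℝ) ^ 2 else 0) := by
      push_cast
      refine Finset.sum_congr rfl fun j _ => ?_
      split_ifs
      · rw [sq_abs]
      · simp
    rw [← this]
    exact_mod_cast h0
  rw [le_div_iff₀ hH', Finset.sum_mul]
  rw [← sum_sq_real hw n]
  have h1 : ∀ j ∈ nd n, (if big w H n j then ((|R109.GT.slope w n j| : ℤ) : ℝ) else 0) * H +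
      (1 / 2) * (if big w H n j then ((|R109.GT.slope w n j| : ℤ) : ℝ) ^ 2 - (H:ℝ) ^ 2 else 0) ≤
      ((|R109.GT.slope w n j| : ℤ) : ℝ) ^ 2 := by
    intro j _
    split_ifs
    · nlinarith [sq_nonneg (((|R109.GT.slope w n j| : ℤ) : ℝ) - H)]
    · simp only [zero_mul, mul_zero, add_zero]; positivity
  have h2 := Finset.sum_le_sum h1
  rw [Finset.sum_add_distrib, ← Finset.mul_sum] at h2
  linarith

theorem count_cov (w : ℕ → ℤ → ℤ) (n : ℕ) (j : ℤ) (M : ℤ) (h1 : |val w n j| ≤ M)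
    (h2 : |val w n j + R109.GT.slope w n j| ≤ M) :
    ∑ c ∈ Finset.Ico (-M) M, (if cov w n j c then (1:ℝ) else 0) = ((|R109.GT.slope w n j| : ℤ) : ℝ) := by
  rw [Finset.sum_boole]
  rw [abs_le] at h1 h2
  rcases le_total 0 (R109.GT.slope w n j) with hs | hs
  · have : Finset.filter (fun c => cov w n j c) (Finset.Ico (-M) M) =
        Finset.Ico (val w n j) (val w n j + R109.GT.slope w n j) := by
      ext c
      rw [Finset.mem_filter, Finset.mem_Ico, Finset.mem_Ico, cov]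
      omega
    rw [this, Int.card_Ico, abs_of_nonneg hs, add_sub_cancel_left]
    have := Int.toNat_of_nonneg hs
    exact_mod_cast this
  · have : Finset.filter (fun c => cov w n j c) (Finset.Ico (-M) M) =
        Finset.Ico (val w n j + R109.GT.slope w n j) (val w n j) := by
      ext c
      rw [Finset.mem_filter, Finset.mem_Ico, Finset.mem_Ico, cov]
      omega
    rw [this, Int.card_Ico, abs_of_nonpos hs]
    have e : val w n j - (val w n j + R109.GT.slope w n j) = - R109.GT.slope w n j := by ring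
    rw [e]
    have := Int.toNat_of_nonneg (neg_nonneg.mpr hs)
    exact_mod_cast this

/-- the sum of the reciprocals of the slopes of the nodes covering `c` -/
noncomputable def rs (w : ℕ → ℤ → ℤ) (n : ℕ) (c : ℤ) : ℝ :=
  ∑ j ∈ nd n, (if cov w n j c then 1 / ((|R109.GT.slope w n j| : ℤ) : ℝ) else 0)

/-- the same sum over the nodes with slope larger than `S` in absolute value -/
noncomputable def rh (w : ℕ → ℤ → ℤ) (S : ℤ) (n : ℕ) (c : ℤ) : ℝ :=
  ∑ j ∈ nd n, (if cov w n j c ∧ S < |R109.GT.slope w n j| then 1 / ((|R109.GT.slope w n j| : ℤ) : ℝ) else 0)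

/-- number of non-big nodes covering `c` -/
noncomputable def nb (w : ℕ → ℤ → ℤ) (H : ℤ) (n : ℕ) (c : ℤ) : ℝ :=
  ∑ j ∈ nd n, (if cov w n j c ∧ ¬ big w H n j then (1:ℝ) else 0)

/-- number of births -/
noncomputable def bn (w : ℕ → ℤ → ℤ) (n : ℕ) (c : ℤ) : ℝ :=
  ∑ j ∈ nd n, (if birth w n j c then (1:ℝ) else 0)

theorem nb_succ {w : ℕ → ℤ → ℤ} (hw : Sgn w) (H : ℤ) (n : ℕ) (c : ℤ) :
    nb w H (n + 1) c ≤ nb w H n (c / 2) + 2 * bn w n c := by
  unfold nb bn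
  rw [sum_nd_succ, Finset.mul_sum, ← Finset.sum_add_distrib]
  exact Finset.sum_le_sum fun j _ => step_count hw H n j c

theorem cov_slope {w : ℕ → ℤ → ℤ} {n : ℕ} {j c : ℤ} (h : cov w n j c) : 1 ≤ |R109.GT.slope w n j| := by
  unfold cov at h
  rcases le_total 0 (R109.GT.slope w n j) with hs | hs
  · rw [abs_of_nonneg hs]; omega
  · rw [abs_of_nonpos hs]; omega

theorem bn_le {w : ℕ → ℤ → ℤ} (n : ℕ) (c : ℤ) :
    2 * bn w n c ≤ rs w (n + 1) c := by
  unfold bn rs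
  rw [sum_nd_succ, Finset.mul_sum]
  refine Finset.sum_le_sum fun j _ => ?_
  have hnn : ∀ j : ℤ, (0:ℝ) ≤ (if cov w (n + 1) j c then 1 / ((|R109.GT.slope w (n + 1) j| : ℤ) : ℝ) else 0) := by
    intro j
    split_ifs
    · have : (0:ℝ) ≤ ((|R109.GT.slope w (n + 1) j| : ℤ) : ℝ) := by exact_mod_cast abs_nonneg _
      positivity
    · exact le_rfl
  by_cases hb : birth w n j c
  · obtain ⟨h1, h2, h3, h4⟩ := birth_cov n j c hb
    rw [if_pos hb, if_pos h1, if_pos h2, h3, h4]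
    norm_num
  · rw [if_neg hb, mul_zero]
    exact add_nonneg (hnn _) (hnn _)

theorem nb_le {w : ℕ → ℤ → ℤ} (S H : ℤ) (hS : 0 ≤ S) (hH : 0 ≤ H) (n : ℕ) (c : ℤ) :
    nb w H n c ≤ S * rs w n c + H * rh w S n c := by
  unfold nb rs rh
  rw [Finset.mul_sum, Finset.mul_sum, ← Finset.sum_add_distrib]
  refine Finset.sum_le_sum fun j _ => ?_
  have hS' : (0:ℝ) ≤ S := by exact_mod_cast hS
  have hH' : (0:ℝ) ≤ H := by exact_mod_cast hH
  by_cases hc : cov w n j c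
  · have h1 := cov_slope hc
    have h1' : (1:ℝ) ≤ ((|R109.GT.slope w n j| : ℤ) : ℝ) := by exact_mod_cast h1
    by_cases hb : big w H n j
    · simp only [hc, hb, true_and, not_true_eq_false, if_false, if_true]
      split_ifs <;> positivity
    · simp only [hc, hb, true_and, not_false_eq_true, if_true]
      have h2 := le_of_not_big w H n j hb
      have h2' : ((|R109.GT.slope w n j| : ℤ) : ℝ) ≤ H := by exact_mod_cast h2
      by_cases h3 : S < |R109.GT.slope w n j|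
      · rw [if_pos h3]
        have : (1:ℝ) ≤ H * (1 / ((|R109.GT.slope w n j| : ℤ) : ℝ)) := by
          rw [mul_one_div, le_div_iff₀ (by linarith)]; linarith
        have : (0:ℝ) ≤ S * (1 / ((|R109.GT.slope w n j| : ℤ) : ℝ)) := by positivity
        linarith
      · rw [if_neg h3]
        have h3' : ((|R109.GT.slope w n j| : ℤ) : ℝ) ≤ S := by exact_mod_cast not_lt.mp h3
        have : (1:ℝ) ≤ S * (1 / ((|R109.GT.slope w n j| : ℤ) : ℝ)) := by
          rw [mul_one_div, le_div_iff₀ (by linarith)]; linarith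
        linarith
  · simp [hc]

theorem nb_zero (w : ℕ → ℤ → ℤ) (H : ℤ) (c : ℤ) : nb w H 0 c = 0 := by
  unfold nb
  rw [sum_nd_zero]
  have : ¬ cov w 0 0 c := by
    intro h
    have := cov_slope h
    simp [R109.GT.slope] at this
  simp [this]

theorem rs_nonneg (w : ℕ → ℤ → ℤ) (n : ℕ) (c : ℤ) : 0 ≤ rs w n c := by
  unfold rs
  refine Finset.sum_nonneg fun j _ => ?_
  split_ifs
  · have : (0:ℝ) ≤ ((|R109.GT.slope w n j| : ℤ) : ℝ) := by exact_mod_cast abs_nonneg _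
    positivity
  · exact le_rfl

theorem nb_bound {w : ℕ → ℤ → ℤ} (hw : Sgn w) (r ε : ℝ) (hr : 0 ≤ r) (hε : 0 ≤ ε) (S H : ℤ)
    (hS : 0 ≤ S) (hH : 0 ≤ H) (m : ℕ)
    (h1 : ∀ t ≤ m, ∀ c, rs w t c ≤ 5 * r)
    (h2 : ∀ t < m, ∀ c', ∀ i ∈ nd t, birth w t i c' → rh w S t (c' / 2) ≤ ε) :
    ∀ t ≤ m, ∀ c, nb w H t c ≤ 5 * r + 5 * r * S + ε * H := by
  have hS' : (0:ℝ) ≤ S := by exact_mod_cast hS
  have hH' : (0:ℝ) ≤ H := by exact_mod_cast hH
  intro t
  induction t with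
  | zero => intro _ c; rw [nb_zero]; positivity
  | succ t ih =>
    intro ht c
    refine (nb_succ hw H t c).trans ?_
    by_cases hb : ∃ i ∈ nd t, birth w t i c
    · obtain ⟨i, hi, hbi⟩ := hb
      have a := h2 t (by omega) c i hi hbi
      have b := nb_le (w := w) S H hS hH t (c / 2)
      have d := h1 t (by omega) (c / 2)
      have e := (bn_le (w := w) t c).trans (h1 (t + 1) ht c)
      nlinarith [mul_le_mul_of_nonneg_left d hS', mul_le_mul_of_nonneg_left a hH']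
    · have h0 : bn w t c = 0 := by
        unfold bn
        refine Finset.sum_eq_zero fun j hj => ?_
        rw [if_neg fun h => hb ⟨j, hj, h⟩]
      rw [h0, mul_zero, add_zero]
      exact ih (by omega) _

/-- the combinatorial contradiction -/
theorem comb_contra {w : ℕ → ℤ → ℤ} (hw : Sgn w) (r : ℝ) (hr : 0 ≤ r) (S : ℤ) (hS : 0 ≤ S)
    (μ : ℕ) (hμ : 20 * r * (1 + S) < μ / 2)
    (h1 : ∀ t ≤ 3 * μ ^ 2, ∀ c, rs w t c ≤ 5 * r)
    (h2 : ∀ t < 3 * μ ^ 2, ∀ c', ∀ i ∈ nd t, birth w t i c' → rh w S t (c' / 2) ≤ 1 / 48) :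
    False := by
  have hS' : (0:ℝ) ≤ S := by exact_mod_cast hS
  have hμ0 : 0 < μ := by
    by_contra h
    have : μ = 0 := by omega
    rw [this] at hμ
    have : 0 ≤ 20 * r * (1 + S) := by positivity
    simp at hμ
    linarith
  set m := 3 * μ ^ 2 with hm
  set H : ℤ := 6 * μ with hHdef
  have hH : 0 < H := by omega
  have hμ' : (0:ℝ) < μ := by exact_mod_cast hμ0
  have hlow := sum_abs_lower hw μ hμ0
  rw [← hm] at hlow
  have hup := sum_big_upper hw H hH m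
  have hnb := nb_bound hw r (1 / 48) hr (by norm_num) S H hS hH.le m h1 h2 m le_rfl
  -- number of covered cells
  have hvb : ∀ j : ℤ, |val w m j| ≤ 2 ^ m := fun j => abs_val_le hw m j
  have hvb2 : ∀ j : ℤ, |val w m j + R109.GT.slope w m j| ≤ 2 ^ m := fun j => by
    rw [← val_add]; exact hvb _
  have hcount : ∑ j ∈ nd m, ((|R109.GT.slope w m j| : ℤ) : ℝ) =
      ∑ c ∈ Finset.Ico (-(2:ℤ) ^ m) (2 ^ m), nb w H m c +
        ∑ j ∈ nd m, (if big w H m j then ((|R109.GT.slope w m j| : ℤ) : ℝ) else 0) := by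
    unfold nb
    rw [Finset.sum_comm, ← Finset.sum_add_distrib]
    refine Finset.sum_congr rfl fun j _ => ?_
    by_cases hb : big w H m j
    · simp [hb]
    · simp only [hb, not_false_eq_true, and_true, if_false, add_zero]
      exact (count_cov w m j (2 ^ m) (hvb j) (hvb2 j)).symm
  have hsum : ∑ c ∈ Finset.Ico (-(2:ℤ) ^ m) (2 ^ m), nb w H m c ≤
      2 * 2 ^ m * (5 * r + 5 * r * S + 1 / 48 * H) := by
    refine (Finset.sum_le_card_nsmul _ _ _ fun c _ => hnb c).trans ?_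
    rw [Int.card_Ico, nsmul_eq_mul]
    have e : (2:ℤ) ^ m - -(2:ℤ) ^ m = 2 * 2 ^ m := by ring
    rw [e]
    have e2 : (((2 * 2 ^ m : ℤ).toNat : ℕ) : ℝ) = 2 * 2 ^ m := by
      have : ((2 * 2 ^ m : ℤ).toNat : ℤ) = 2 * 2 ^ m := Int.toNat_of_nonneg (by positivity)
      exact_mod_cast this
    rw [e2]
  have hHr : (H:ℝ) = 6 * μ := by rw [hHdef]; push_cast; ring
  have hmr : (m:ℝ) = 3 * (μ:ℝ) ^ 2 := by rw [hm]; push_cast; ring
  rw [hHr] at hsum hup
  rw [hmr] at hup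
  have e3 : 3 * (μ:ℝ) ^ 2 * 2 ^ m / (6 * μ) = 2 ^ m * (μ / 2) := by field_simp; ring
  rw [e3] at hup
  have hP : (0:ℝ) < 2 ^ m := by positivity
  have hfin : (2:ℝ) ^ m * μ ≤ 2 ^ m * (2 * (5 * r + 5 * r * S + 1 / 48 * (6 * μ)) + μ / 2) := by
    calc (2:ℝ) ^ m * μ ≤ _ := hlow
      _ = _ := hcount
      _ ≤ 2 * 2 ^ m * (5 * r + 5 * r * S + 1 / 48 * (6 * μ)) + 2 ^ m * (μ / 2) := add_le_add hsum hup
      _ = _ := by ring
  have := le_of_mul_le_mul_left hfin hP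
  nlinarith

end Pool.Agent.L0h88.TK
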