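import Pool.Agent.L0h88.TK.High

/-! The image of the set of points with infinitely many zero slopes is null. -/

open MeasureTheory Set Filter Topology Metric
open scoped ENNReal

namespace Pool.Agent.L0h88.TK

open R109.GT hiding slope

/-- occupation measure of `tak w` on `[0,1)` -/
noncomputable def occ (w : ℕ → ℤ → ℤ) : Measure ℝ := (volume.restrict (J 0 0)).map (tak w)

theorem occ_apply {w : ℕ → ℤ → ℤ} (hw : Sgn w) {A : Set ℝ} (hA : MeasurableSet A) :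
    occ w A = volume {x : ℝ | x ∈ J 0 0 ∧ tak w x ∈ A} := by
  unfold occ
  rw [Measure.map_apply (cont w hw).measurable hA,
    Measure.restrict_apply ((cont w hw).measurable hA)]
  congr 1
  ext x
  simp only [mem_inter_iff, mem_preimage, mem_ofPred_eq]
  tauto

instance (w : ℕ → ℤ → ℤ) : IsFiniteMeasure (occ w) := by
  unfold occ
  have : IsFiniteMeasure (volume.restrict (J 0 0)) := ⟨by
    rw [Measure.restrict_apply_univ]
    exact lt_top_iff_ne_top.mpr (vol_J_ne_top 0 0)⟩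
  infer_instance

theorem J_sub {n : ℕ} {j : ℤ} {x : ℝ} (hx : x ∈ J n j) (h0 : x ∈ J 0 0) : J n j ⊆ J 0 0 := by
  intro z hz
  have h1 : ⌊(2:ℝ) ^ n * x⌋ = j := hx
  have h2 : ⌊(2:ℝ) ^ n * z⌋ = j := hz
  have h3 : ⌊(2:ℝ) ^ 0 * x⌋ = 0 := h0
  show ⌊(2:ℝ) ^ 0 * z⌋ = 0
  rw [floor_div 0 n z, zero_add, h2, ← h1]
  rw [floor_div 0 n x, zero_add] at h3
  exact h3

theorem null_Z {w : ℕ → ℤ → ℤ} (hw : Sgn w) : volume (tak w '' (Z w ∩ Ico 0 1)) = 0 := by
  by_contra hne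
  -- density theorem for all eccentricities
  have hae : ∀ᵐ y ∂(volume : Measure ℝ), (occ w).rnDeriv volume y < ∞ ∧ ∀ K : ℕ,
      Tendsto (fun a => occ w a / volume a)
        ((IsUnifLocDoublingMeasure.vitaliFamily (volume : Measure ℝ) (K:ℝ)).filterAt y)
        (𝓝 ((occ w).rnDeriv volume y)) := by
    have h1 := Measure.rnDeriv_lt_top (occ w) (volume : Measure ℝ)
    have h2 : ∀ᵐ y ∂(volume : Measure ℝ), ∀ K : ℕ,
        Tendsto (fun a => occ w a / volume a)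
        ((IsUnifLocDoublingMeasure.vitaliFamily (volume : Measure ℝ) (K:ℝ)).filterAt y)
        (𝓝 ((occ w).rnDeriv volume y)) := by
      rw [ae_all_iff]
      intro K
      exact VitaliFamily.ae_tendsto_rnDeriv _ _
    filter_upwards [h1, h2] with y a b using ⟨a, b⟩
  obtain ⟨y, hyE, hyfin, hy⟩ := Measure.exists_mem_of_measure_ne_zero_of_ae hne (ae_restrict_of_ae hae)
  obtain ⟨x, ⟨hxZ, hx01⟩, hxy⟩ := hyE
  have hx0 : x ∈ J 0 0 := by
    rw [J_eq]; simpa using hx01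
  set L := (occ w).rnDeriv volume y with hL
  set R : ℝ := L.toReal + 1 with hR
  have hR0 : 0 < R := by positivity
  have hLR : L < ENNReal.ofReal R := by
    rw [← ENNReal.ofReal_toReal hyfin.ne]
    exact (ENNReal.ofReal_lt_ofReal_iff hR0).mpr (by rw [hR]; linarith)
  apply no_uniform
  refine ⟨R, fun D => ?_⟩
  have h2D : (0:ℝ) < 2 ^ D := by positivity
  have hev := (hy (8 * 2 ^ D)).eventually (gt_mem_nhds hLR)
  rw [VitaliFamily.eventually_filterAt_iff] at hev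
  obtain ⟨ε, hε, hP⟩ := hev
  -- choose a level
  obtain ⟨N, hN⟩ : ∃ N : ℕ, ∀ n ≥ N, (5:ℝ) / 2 ^ n ≤ ε := by
    have ht : Tendsto (fun n : ℕ => (5:ℝ) / 2 ^ n) atTop (𝓝 0) := by
      have := tendsto_pow_atTop_nhds_zero_of_lt_one (r := (1/2:ℝ)) (by norm_num) (by norm_num)
      have h5 := this.const_mul 5
      simp only [mul_zero] at h5
      refine h5.congr fun n => ?_
      rw [one_div, inv_pow]
      rfl
    have := (ht.eventually (ge_mem_nhds hε))
    rw [eventually_atTop] at this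
    exact this
  obtain ⟨n, hnN, hS⟩ : ∃ n ≥ N, S w n x = 0 := by
    have h : ∃ᶠ n in atTop, S w n x = 0 := hxZ
    rw [frequently_atTop] at h
    obtain ⟨n, h1, h2⟩ := h N
    exact ⟨n, h1, h2⟩
  have h2n : (0:ℝ) < 2 ^ n := by positivity
  set j := ⌊(2:ℝ) ^ n * x⌋ with hj
  have hxj : x ∈ J n j := rfl
  have hsl : R109.GT.slope w n j = 0 := hS
  have hJs := J_sub hxj hx0
  refine ⟨shf w n j, sgn_shf hw n j, fun e => ?_⟩
  set F : ℝ := (val w n j : ℝ) with hF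
  -- y is close to F / 2^n
  have hyF : |y - F / 2 ^ n| ≤ 1 / 2 ^ n := by
    have hx' : x ∈ Icc ((j:ℝ) / 2 ^ n) (((j:ℝ) + 1) / 2 ^ n) := by
      rw [J_eq] at hxj; exact Ico_subset_Icc_self hxj
    rw [← hxy, tak_node hw n j x hx', hsl]
    have hb := bound _ (sgn_tail hw n) ((2:ℝ) ^ n * x)
    have e1 : (F + ((0:ℤ):ℝ) * (2 ^ n * x - j) + tak (fun m => w (n + m)) (2 ^ n * x)) / 2 ^ n
        - F / 2 ^ n = tak (fun m => w (n + m)) (2 ^ n * x) / 2 ^ n := by push_cast; ring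
    rw [e1, abs_div, abs_of_pos h2n]
    gcongr
  have hsc := W_scale hw n j hsl (F + (e:ℝ) / 2 ^ D) (F + ((e:ℝ) + 1) / 2 ^ D)
  rw [← hF] at hsc
  have e2 : F + (e:ℝ) / 2 ^ D - F = (e:ℝ) / 2 ^ D := by ring
  have e3 : F + ((e:ℝ) + 1) / 2 ^ D - F = ((e:ℝ) + 1) / 2 ^ D := by ring
  rw [e2, e3] at hsc
  by_cases hcase : -2 * 2 ^ D ≤ e ∧ e + 1 ≤ 2 * 2 ^ D
  · have hc1 : (-2:ℝ) * 2 ^ D ≤ e := by exact_mod_cast hcase.1
    have hc2 : (e:ℝ) + 1 ≤ 2 * 2 ^ D := by exact_mod_cast hcase.2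
    set m : ℝ := (F + ((e:ℝ) + 1 / 2) / 2 ^ D) / 2 ^ n with hm
    set ρ : ℝ := 1 / 2 / 2 ^ D / 2 ^ n with hρ
    have hρ0 : 0 < ρ := by positivity
    have hmF : |m - F / 2 ^ n| ≤ 2 / 2 ^ n := by
      have e4 : m - F / 2 ^ n = (((e:ℝ) + 1 / 2) / 2 ^ D) / 2 ^ n := by rw [hm]; ring
      rw [e4, abs_div, abs_of_pos h2n]
      gcongr
      rw [abs_div, abs_of_pos h2D, div_le_iff₀ h2D, abs_le]
      constructor <;> linarith
    have hdist : |y - m| ≤ 3 / 2 ^ n := by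
      have e5 : y - m = (y - F / 2 ^ n) - (m - F / 2 ^ n) := by ring
      rw [e5]
      refine (abs_sub _ _).trans ?_
      have e6 : (3:ℝ) / 2 ^ n = 1 / 2 ^ n + 2 / 2 ^ n := by ring
      rw [e6]
      exact add_le_add hyF hmF
    have hKρ : ((8 * 2 ^ D : ℕ) : ℝ) * ρ = 4 / 2 ^ n := by
      rw [hρ]; push_cast; field_simp; norm_num
    have hmem : closedBall m ρ ∈
        (IsUnifLocDoublingMeasure.vitaliFamily (volume : Measure ℝ) ((8 * 2 ^ D : ℕ) : ℝ)).setsAt y := by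
      apply IsUnifLocDoublingMeasure.closedBall_mem_vitaliFamily_of_dist_le_mul _ _ hρ0
      rw [Real.dist_eq, hKρ]
      refine hdist.trans ?_
      gcongr; norm_num
    have hρle : ρ ≤ 1 / 2 ^ n := by
      rw [hρ]
      gcongr
      rw [div_le_one h2D]
      have : (1:ℝ) ≤ 2 ^ D := one_le_pow₀ (by norm_num)
      linarith
    have hsub : closedBall m ρ ⊆ closedBall y ε := by
      apply closedBall_subset_closedBall'
      rw [Real.dist_eq, abs_sub_comm]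
      have := hN n hnN
      have e7 : (5:ℝ) / 2 ^ n = 1 / 2 ^ n + 3 / 2 ^ n + 1 / 2 ^ n := by ring
      have : (0:ℝ) < 1 / 2 ^ n := by positivity
      linarith
    have hlt := hP _ hmem hsub
    rw [Real.volume_closedBall] at hlt
    have hpos2 : ENNReal.ofReal (2 * ρ) ≠ 0 := by
      rw [Ne, ENNReal.ofReal_eq_zero, not_le]; positivity
    have hlt2 : occ w (closedBall m ρ) ≤ ENNReal.ofReal R * ENNReal.ofReal (2 * ρ) := by
      rw [ENNReal.div_lt_iff (Or.inl hpos2) (Or.inl ENNReal.ofReal_ne_top)] at hlt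
      exact hlt.le
    rw [← ENNReal.ofReal_mul hR0.le, occ_apply hw measurableSet_closedBall] at hlt2
    -- compare
    have hW : W w n j ((F + (e:ℝ) / 2 ^ D) / 2 ^ n) ((F + ((e:ℝ) + 1) / 2 ^ D) / 2 ^ n) ≤ R * (2 * ρ) := by
      unfold W
      have h5 : volume {x : ℝ | x ∈ J n j ∧ tak w x ∈
          Ico ((F + (e:ℝ) / 2 ^ D) / 2 ^ n) ((F + ((e:ℝ) + 1) / 2 ^ D) / 2 ^ n)} ≤
          ENNReal.ofReal (R * (2 * ρ)) := by
        refine le_trans (measure_mono ?_) hlt2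
        rintro z ⟨hz1, hz2⟩
        refine ⟨hJs hz1, ?_⟩
        rw [Real.closedBall_eq_Icc]
        have e8 : m - ρ = (F + (e:ℝ) / 2 ^ D) / 2 ^ n := by rw [hm, hρ]; ring
        have e9 : m + ρ = (F + ((e:ℝ) + 1) / 2 ^ D) / 2 ^ n := by rw [hm, hρ]; ring
        rw [e8, e9]
        exact Ico_subset_Icc_self hz2
      have h6 := ENNReal.toReal_mono ENNReal.ofReal_ne_top h5
      rw [ENNReal.toReal_ofReal (by positivity)] at h6
      exact h6
    rw [hsc, div_le_iff₀ h2n] at hW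
    refine hW.trans (le_of_eq ?_)
    rw [hρ]; field_simp
  · have hempty : {x : ℝ | x ∈ J 0 0 ∧ tak (shf w n j) x ∈ Ico ((e:ℝ) / 2 ^ D) (((e:ℝ) + 1) / 2 ^ D)} = ∅ := by
      ext x
      simp only [mem_ofPred_eq, mem_empty_iff_false, iff_false, not_and]
      rintro _ ⟨h9, h10⟩
      have hbd := bound (shf w n j) (sgn_shf hw n j) x
      rw [abs_le] at hbd
      rw [div_le_iff₀ h2D] at h9
      rw [lt_div_iff₀ h2D] at h10
      apply hcase
      have h11 : (-1:ℝ) * 2 ^ D < (e:ℝ) + 1 := by nlinarith [hbd.1]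
      have h12 : (e:ℝ) ≤ 1 * 2 ^ D := by nlinarith [hbd.2]
      have h11' : (-1:ℤ) * 2 ^ D < e + 1 := by exact_mod_cast h11
      have h12' : e ≤ (1:ℤ) * 2 ^ D := by exact_mod_cast h12
      have hp : (1:ℤ) ≤ 2 ^ D := one_le_pow₀ (by norm_num)
      constructor <;> linarith
    unfold W
    rw [hempty, measureReal_empty]
    positivity

theorem ae_fin {w : ℕ → ℤ → ℤ} (hw : Sgn w) :
    ∀ᵐ y ∂(volume : Measure ℝ), {x | x ∈ Icc (0:ℝ) 1 ∧ tak w x = y}.Finite :=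
  ae_finite w hw (null_Z hw)

end Pool.Agent.L0h88.TK
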