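import Pool.Agent.L0h88.TK.Meas

/-! Steep nodes spread their mass; extremal constant; no uniform bound at all scales. -/

open MeasureTheory Set Filter Topology
open scoped ENNReal

namespace Pool.Agent.L0h88.TK

open R109.GT hiding slope
open scoped Classical

/-- a steep node gives mass to each small cell inside a covered cell -/
theorem W_high {w : ℕ → ℤ → ℤ} (hw : Sgn w) (n q : ℕ) (j c e : ℤ) (h : cov w n j c)
    (hs : (q:ℤ) + 3 ≤ |R109.GT.slope w n j|) (h1 : c * 2 ^ q ≤ e) (h2 : e + 1 ≤ (c + 1) * 2 ^ q) :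
    1 / ((|R109.GT.slope w n j| : ℤ) : ℝ) / (8 * 2 ^ (n + q)) ≤
      W w n j ((e:ℝ) / 2 ^ (n + q)) (((e:ℝ) + 1) / 2 ^ (n + q)) := by
  have hn : (0:ℝ) < 2 ^ n := by positivity
  have hq : (0:ℝ) < 2 ^ q := by positivity
  have hnq : (0:ℝ) < 2 ^ (n + q) := by positivity
  set s : ℝ := ((|R109.GT.slope w n j| : ℤ) : ℝ) with hsdef
  have hs1 : ((q:ℝ)) + 3 ≤ s := by rw [hsdef]; exact_mod_cast hs
  have hs0 : (3:ℝ) ≤ s := by
    have : (0:ℝ) ≤ q := by positivity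
    linarith
  have hsabs : |(R109.GT.slope w n j : ℝ)| = s := by rw [hsdef]; push_cast; rfl
  -- intermediate value
  set ym : ℝ := ((e:ℝ) + 1 / 2) / 2 ^ (n + q) with hym
  have hc1 : (c:ℝ) / 2 ^ n ≤ ym := by
    rw [hym, div_le_div_iff₀ hn hnq, pow_add]
    have : (c:ℝ) * 2 ^ q ≤ e := by exact_mod_cast h1
    nlinarith
  have hc2 : ym ≤ ((c:ℝ) + 1) / 2 ^ n := by
    rw [hym, div_le_div_iff₀ hnq hn, pow_add]
    have : (e:ℝ) + 1 ≤ ((c:ℝ) + 1) * 2 ^ q := by exact_mod_cast h2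
    nlinarith
  have hab : (j:ℝ) / 2 ^ n ≤ ((j:ℝ) + 1) / 2 ^ n := by gcongr; linarith
  have hfa := tak_dyadic hw n j
  have hfb := tak_dyadic hw n (j + 1)
  rw [val_add] at hfb
  push_cast at hfb
  obtain ⟨x₀, hx₀, hfx₀⟩ : ∃ x₀ ∈ Icc ((j:ℝ) / 2 ^ n) (((j:ℝ) + 1) / 2 ^ n), tak w x₀ = ym := by
    unfold cov at h
    rcases h with ⟨h3, h4⟩ | ⟨h3, h4⟩
    · have h3' : (val w n j : ℝ) ≤ c := by exact_mod_cast h3
      have h4' : (c:ℝ) + 1 ≤ val w n j + R109.GT.slope w n j := by exact_mod_cast h4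
      have := intermediate_value_Icc hab (cont w hw).continuousOn
      have hy : ym ∈ Icc (tak w ((j:ℝ) / 2 ^ n)) (tak w (((j:ℝ) + 1) / 2 ^ n)) := by
        rw [hfa, hfb]
        constructor
        · exact le_trans (by gcongr) hc1
        · exact le_trans hc2 (by gcongr)
      exact this hy
    · have h3' : (val w n j : ℝ) + R109.GT.slope w n j ≤ c := by exact_mod_cast h3
      have h4' : (c:ℝ) + 1 ≤ val w n j := by exact_mod_cast h4
      have := intermediate_value_Icc' hab (cont w hw).continuousOn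
      have hy : ym ∈ Icc (tak w (((j:ℝ) + 1) / 2 ^ n)) (tak w ((j:ℝ) / 2 ^ n)) := by
        rw [hfa, hfb]
        constructor
        · exact le_trans (by gcongr) hc1
        · exact le_trans hc2 (by gcongr)
      exact this hy
  set τ : ℝ := 1 / s / (8 * 2 ^ (n + q)) with hτ
  have hτ0 : 0 < τ := by positivity
  have hτs : s * τ = 1 / (8 * 2 ^ (n + q)) := by rw [hτ]; field_simp
  -- closeness
  have hclose : ∀ x ∈ Icc ((j:ℝ) / 2 ^ n) (((j:ℝ) + 1) / 2 ^ n), |x - x₀| < τ →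
      |tak w x - ym| < 1 / 2 / 2 ^ (n + q) := by
    intro x hx hxτ
    rw [← hfx₀, tak_node hw n j x hx, tak_node hw n j x₀ hx₀]
    have hd := tak_diff (sgn_tail hw n) (q + 3) ((2:ℝ) ^ n * x) ((2:ℝ) ^ n * x₀)
    set g1 := tak (fun m => w (n + m)) ((2:ℝ) ^ n * x)
    set g2 := tak (fun m => w (n + m)) ((2:ℝ) ^ n * x₀)
    have e1 : ((val w n j : ℝ) + R109.GT.slope w n j * (2 ^ n * x - j) + g1) / 2 ^ n -
        ((val w n j : ℝ) + R109.GT.slope w n j * (2 ^ n * x₀ - j) + g2) / 2 ^ n =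
        (R109.GT.slope w n j * (2 ^ n * (x - x₀)) + (g1 - g2)) / 2 ^ n := by ring
    rw [e1, abs_div, abs_of_pos hn, div_lt_div_iff₀ hn hnq]
    have e2 : |(R109.GT.slope w n j : ℝ) * (2 ^ n * (x - x₀))| = s * (2 ^ n * |x - x₀|) := by
      rw [abs_mul, abs_mul, hsabs, abs_of_pos hn]
    have e3 : |(2:ℝ) ^ n * x - 2 ^ n * x₀| = 2 ^ n * |x - x₀| := by
      rw [← mul_sub, abs_mul, abs_of_pos hn]
    rw [e3] at hd
    have e4 := abs_add_le ((R109.GT.slope w n j : ℝ) * (2 ^ n * (x - x₀))) (g1 - g2)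
    rw [e2] at e4
    have hx3 : (((q + 3 : ℕ) : ℝ)) * (2 ^ n * |x - x₀|) ≤ s * (2 ^ n * |x - x₀|) := by
      apply mul_le_mul_of_nonneg_right _ (by positivity)
      push_cast; exact hs1
    have hx4 : s * (2 ^ n * |x - x₀|) < 2 ^ n * (1 / (8 * 2 ^ (n + q))) := by
      rw [← hτs]
      have : s * (2 ^ n * |x - x₀|) = 2 ^ n * (s * |x - x₀|) := by ring
      rw [this]
      gcongr
    have e5 : (2:ℝ) ^ n * (1 / (8 * 2 ^ (n + q))) = 1 / 8 / 2 ^ q := by rw [pow_add]; field_simp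
    rw [e5] at hx4
    have e6 : (2:ℝ) / 2 ^ (q + 3) = 1 / 4 / 2 ^ q := by rw [pow_add]; field_simp; norm_num
    rw [e6] at hd
    have htot : |(R109.GT.slope w n j : ℝ) * (2 ^ n * (x - x₀)) + (g1 - g2)| < 1 / 2 / 2 ^ q := by
      have e7 : (1:ℝ) / 2 / 2 ^ q = 1 / 8 / 2 ^ q + (1 / 8 / 2 ^ q + 1 / 4 / 2 ^ q) := by ring
      rw [e7]
      linarith
    have h9 := mul_lt_mul_of_pos_right htot hnq
    have e10 : (1:ℝ) / 2 / 2 ^ q * 2 ^ (n + q) = 1 / 2 * 2 ^ n := by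
      rw [pow_add, div_mul_eq_mul_div, div_eq_iff hq.ne']; ring
    rw [e10] at h9
    exact h9
  have hτle : τ ≤ 1 / 2 / 2 ^ n := by
    rw [hτ, div_div, div_div]
    apply one_div_le_one_div_of_le (by positivity)
    have : (1:ℝ) ≤ 2 ^ q := one_le_pow₀ (by norm_num)
    rw [pow_add]
    nlinarith [mul_pos hn hq]
  -- a one-sided interval
  have key : ∀ α β : ℝ, (j:ℝ) / 2 ^ n ≤ α → β ≤ ((j:ℝ) + 1) / 2 ^ n → β - α = τ →
      (∀ x ∈ Ioo α β, |x - x₀| < τ) →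
      τ ≤ W w n j ((e:ℝ) / 2 ^ (n + q)) (((e:ℝ) + 1) / 2 ^ (n + q)) := by
    intro α β hα hβ hlen hin
    have hsub : Ioo α β ⊆ {x : ℝ | x ∈ J n j ∧
        tak w x ∈ Ico ((e:ℝ) / 2 ^ (n + q)) (((e:ℝ) + 1) / 2 ^ (n + q))} := by
      intro x hx
      have hxI : x ∈ Icc ((j:ℝ) / 2 ^ n) (((j:ℝ) + 1) / 2 ^ n) :=
        ⟨hα.trans hx.1.le, hx.2.le.trans hβ⟩
      refine ⟨?_, ?_⟩
      · rw [J_eq]; exact ⟨hxI.1, hx.2.trans_le hβ⟩
      · have h5 := hclose x hxI (hin x hx)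
        rw [abs_lt] at h5
        have e8 : ym = (e:ℝ) / 2 ^ (n + q) + 1 / 2 / 2 ^ (n + q) := by rw [hym]; ring
        have e9 : ((e:ℝ) + 1) / 2 ^ (n + q) = ym + 1 / 2 / 2 ^ (n + q) := by rw [hym]; ring
        constructor
        · linarith [h5.1]
        · rw [e9]; linarith [h5.2]
    have hm := measureReal_mono (μ := volume) hsub (W_set_ne_top w _ _ _ _)
    rw [Real.volume_real_Ioo_of_le (by linarith), hlen] at hm
    exact hm
  rcases le_total x₀ (((j:ℝ) + 1 / 2) / 2 ^ n) with hx | hx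
  · refine key x₀ (x₀ + τ) hx₀.1 ?_ (by ring) ?_
    · have : ((j:ℝ) + 1) / 2 ^ n = ((j:ℝ) + 1 / 2) / 2 ^ n + 1 / 2 / 2 ^ n := by ring
      rw [this]; linarith
    · intro x hx'
      rw [abs_lt]; constructor <;> linarith [hx'.1, hx'.2]
  · refine key (x₀ - τ) x₀ ?_ hx₀.2 (by ring) ?_
    · have : (j:ℝ) / 2 ^ n = ((j:ℝ) + 1 / 2) / 2 ^ n - 1 / 2 / 2 ^ n := by ring
      rw [this]; linarith
    · intro x hx'
      rw [abs_lt]; constructor <;> linarith [hx'.1, hx'.2]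

theorem child {w : ℕ → ℤ → ℤ} (hw : Sgn w) (n : ℕ) (j τ : ℤ) (hτ : τ = 1 ∨ τ = -1) :
    ∃ j', J (n + 1) j' ⊆ J n j ∧ R109.GT.slope w (n + 1) j' = R109.GT.slope w n j + τ ∧
      (val w (n + 1) j' = 2 * val w n j ∨ val w (n + 1) j' = 2 * val w n j + R109.GT.slope w n j - τ) := by
  rcases hτ with rfl | rfl <;> rcases hw n j with h | h
  · exact ⟨2 * j, J_even n j, by rw [slope_even, h], Or.inl (val_even _ _ _)⟩
  · exact ⟨2 * j + 1, J_odd n j, by rw [slope_odd, h]; ring, Or.inr (by rw [val_odd, h]; ring)⟩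
  · exact ⟨2 * j + 1, J_odd n j, by rw [slope_odd, h]; ring, Or.inr (by rw [val_odd, h]; ring)⟩
  · exact ⟨2 * j, J_even n j, by rw [slope_even, h], Or.inl (val_even _ _ _)⟩

theorem step4 {w : ℕ → ℤ → ℤ} (hw : Sgn w) (n : ℕ) (j c : ℤ) (h : R109.GT.slope w n j = 3)
    (hv : val w n j = 4 * c ∨ val w n j = 4 * c + 1) :
    ∃ j', J (n + 1) j' ⊆ J n j ∧ (R109.GT.slope w (n + 1) j' = 2 ∨ R109.GT.slope w (n + 1) j' = 4) ∧
      8 * c + 2 ≤ val w (n + 1) j' ∧ val w (n + 1) j' + R109.GT.slope w (n + 1) j' ≤ 8 * c + 6 := by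
  have hwn := hw n j
  rcases hv with v3 | v3
  · refine ⟨2 * j + 1, J_odd _ _, ?_, ?_, ?_⟩
    · rw [slope_odd]; omega
    · rw [val_odd]; omega
    · rw [val_odd, slope_odd]; omega
  · refine ⟨2 * j, J_even _ _, ?_, ?_, ?_⟩
    · rw [slope_even]; omega
    · rw [val_even]; omega
    · rw [val_even, slope_even]; omega

/-- below a birth there is a zero-slope node well inside the cell -/
theorem descend {w : ℕ → ℤ → ℤ} (hw : Sgn w) (t : ℕ) (i c : ℤ) (hb : birth w t i c) :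
    ∃ k i', 1 ≤ k ∧ k ≤ 8 ∧ J (t + k) i' ⊆ J t i ∧ R109.GT.slope w (t + k) i' = 0 ∧
      2 ^ (k - 1) * c + 2 ≤ val w (t + k) i' ∧ val w (t + k) i' + 2 ≤ 2 ^ (k - 1) * (c + 1) := by
  obtain ⟨h0, h1⟩ := hb
  -- slope 1
  have s1 : ∃ j, J (t + 1) j ⊆ J t i ∧ R109.GT.slope w (t + 1) j = 1 ∧ val w (t + 1) j = c := by
    rcases h1 with ⟨h1, h2⟩ | ⟨h1, h2⟩
    · exact ⟨2 * i, J_even t i, by rw [slope_even, h1, h0]; norm_num, by rw [val_even, h2]⟩
    · exact ⟨2 * i + 1, J_odd t i, by rw [slope_odd, h1, h0]; norm_num, by rw [val_odd, h2, h1, h0]; ring⟩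
  obtain ⟨j1, J1, sl1, v1⟩ := s1
  obtain ⟨j2, J2, sl2, v2⟩ := child hw (t + 1) j1 1 (Or.inl rfl)
  have v2' : val w (t + 1 + 1) j2 = 2 * c := by omega
  have sl2' : R109.GT.slope w (t + 1 + 1) j2 = 2 := by omega
  obtain ⟨j3, J3, sl3, v3⟩ := child hw (t + 1 + 1) j2 1 (Or.inl rfl)
  have sl3' : R109.GT.slope w (t + 1 + 1 + 1) j3 = 3 := by omega
  have s4 := step4 hw (t + 1 + 1 + 1) j3 c sl3' (by omega)
  obtain ⟨j4, J4, sl4, v4, v4'⟩ := s4
  obtain ⟨j5, J5, sl5, v5⟩ := child hw (t + 1 + 1 + 1 + 1) j4 (-1) (Or.inr rfl)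
  obtain ⟨j6, J6, sl6, v6⟩ := child hw (t + 1 + 1 + 1 + 1 + 1) j5 (-1) (Or.inr rfl)
  have Jsub6 : J (t + 1 + 1 + 1 + 1 + 1 + 1) j6 ⊆ J t i :=
    J6.trans (J5.trans (J4.trans (J3.trans (J2.trans J1))))
  rcases sl4 with sl4 | sl4
  · refine ⟨6, j6, by norm_num, by norm_num, Jsub6, ?_, ?_, ?_⟩
    · show R109.GT.slope w (t + 1 + 1 + 1 + 1 + 1 + 1) j6 = 0
      omega
    · show 2 ^ (6 - 1) * c + 2 ≤ val w (t + 1 + 1 + 1 + 1 + 1 + 1) j6
      norm_num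
      omega
    · show val w (t + 1 + 1 + 1 + 1 + 1 + 1) j6 + 2 ≤ 2 ^ (6 - 1) * (c + 1)
      norm_num
      omega
  · obtain ⟨j7, J7, sl7, v7⟩ := child hw (t + 1 + 1 + 1 + 1 + 1 + 1) j6 (-1) (Or.inr rfl)
    obtain ⟨j8, J8, sl8, v8⟩ := child hw (t + 1 + 1 + 1 + 1 + 1 + 1 + 1) j7 (-1) (Or.inr rfl)
    refine ⟨8, j8, by norm_num, by norm_num, J8.trans (J7.trans Jsub6), ?_, ?_, ?_⟩
    · show R109.GT.slope w (t + 1 + 1 + 1 + 1 + 1 + 1 + 1 + 1) j8 = 0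
      omega
    · show 2 ^ (8 - 1) * c + 2 ≤ val w (t + 1 + 1 + 1 + 1 + 1 + 1 + 1 + 1) j8
      norm_num
      omega
    · show val w (t + 1 + 1 + 1 + 1 + 1 + 1 + 1 + 1) j8 + 2 ≤ 2 ^ (8 - 1) * (c + 1)
      norm_num
      omega

/-- some array has all cells of level `D` of mass at most `R / 2^D` -/
def PP (R : ℝ) (D : ℕ) : Prop := ∃ w : ℕ → ℤ → ℤ, Sgn w ∧ Bd w R D

theorem hi_bound {w : ℕ → ℤ → ℤ} (hw : Sgn w) {r R' : ℝ} {D D₁ t : ℕ} {S : ℤ} (hBd : Bd w r D)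
    (hD : t + 8 + D₁ ≤ D) (hS : (D₁:ℤ) + 11 ≤ S + 1) (hnP : ¬ PP R' D₁) (c' : ℤ) (i : ℤ)
    (hi : i ∈ nd t) (hb : birth w t i c') : rh w S t (c' / 2) < 8 * (r - R') := by
  by_contra hcon
  push Not at hcon
  apply hnP
  obtain ⟨k, i', hk1, hk8, hJ, hsl, hv1, hv2⟩ := descend hw t i c' hb
  set F := val w (t + k) i' with hF
  set w' := shf w (t + k) i' with hw'
  have hsw' : Sgn w' := sgn_shf hw _ _
  refine ⟨w', hsw', ?_⟩
  set b := rh w S t (c' / 2) with hbdef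
  have h2D : (0:ℝ) < 2 ^ D₁ := by positivity
  have h2t : (0:ℝ) < 2 ^ (t + (k + D₁)) := by positivity
  -- claim for inner cells
  have claim : ∀ e' : ℤ, -2 * 2 ^ D₁ ≤ e' → e' + 1 ≤ 2 * 2 ^ D₁ →
      W w' 0 0 ((e':ℝ) / 2 ^ D₁) (((e':ℝ) + 1) / 2 ^ D₁) ≤ R' / 2 ^ D₁ := by
    intro e' he1 he2
    set e : ℤ := e' + F * 2 ^ D₁ with he
    have hk : (2:ℤ) ^ k = 2 * 2 ^ (k - 1) := by
      obtain ⟨k', rfl⟩ : ∃ k', k = k' + 1 := ⟨k - 1, by omega⟩
      rw [Nat.add_sub_cancel, pow_succ]; ring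
    have hDpos : (0:ℤ) < 2 ^ D₁ := by positivity
    have hkpos : (0:ℤ) < 2 ^ (k - 1) := by positivity
    have hc1 : (c' / 2) * 2 ^ (k + D₁) ≤ e := by
      have h3 : 2 * (c' / 2) ≤ c' := by omega
      have h4 : (c' / 2) * 2 ^ k ≤ F - 2 := by
        rw [hk]
        nlinarith
      rw [pow_add, ← mul_assoc]
      nlinarith
    have hc2 : e + 1 ≤ (c' / 2 + 1) * 2 ^ (k + D₁) := by
      have h3 : c' + 1 ≤ 2 * (c' / 2 + 1) := by omega
      have h4 : F + 2 ≤ (c' / 2 + 1) * 2 ^ k := by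
        rw [hk]
        nlinarith
      rw [pow_add, ← mul_assoc]
      nlinarith
    have hcell := (hBd.of_le hw (D' := t + (k + D₁)) (by omega)) e
    rw [← sum_W hw t] at hcell
    -- scaling
    have hsc := W_scale hw (t + k) i' hsl ((e:ℝ) / 2 ^ D₁) (((e:ℝ) + 1) / 2 ^ D₁)
    rw [div_div, div_div, ← pow_add] at hsc
    have ea : D₁ + (t + k) = t + (k + D₁) := by ring
    rw [ea] at hsc
    have eb : (e:ℝ) / 2 ^ D₁ - (val w (t + k) i' : ℝ) = (e':ℝ) / 2 ^ D₁ := by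
      rw [he, ← hF]; push_cast; field_simp; ring
    have ec : ((e:ℝ) + 1) / 2 ^ D₁ - (val w (t + k) i' : ℝ) = ((e':ℝ) + 1) / 2 ^ D₁ := by
      rw [he, ← hF]; push_cast; field_simp; ring
    rw [eb, ec] at hsc
    have hlow : W w' 0 0 ((e':ℝ) / 2 ^ D₁) (((e':ℝ) + 1) / 2 ^ D₁) / 2 ^ (t + k) +
        b / (8 * 2 ^ (t + (k + D₁))) ≤
        ∑ j ∈ nd t, W w t j ((e:ℝ) / 2 ^ (t + (k + D₁))) (((e:ℝ) + 1) / 2 ^ (t + (k + D₁))) := by
      rw [← hsc, hbdef]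
      unfold rh
      rw [Finset.sum_div]
      have hsplit : W w (t + k) i' ((e:ℝ) / 2 ^ (t + (k + D₁))) (((e:ℝ) + 1) / 2 ^ (t + (k + D₁))) =
          ∑ j ∈ nd t, (if j = i then
            W w (t + k) i' ((e:ℝ) / 2 ^ (t + (k + D₁))) (((e:ℝ) + 1) / 2 ^ (t + (k + D₁))) else 0) := by
        rw [Finset.sum_ite_eq' (nd t) i, if_pos hi]
      rw [hsplit, ← Finset.sum_add_distrib]
      refine Finset.sum_le_sum fun j _ => ?_
      by_cases hji : j = i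
      · subst hji
        have hnc : ¬ (cov w t j (c' / 2) ∧ S < |R109.GT.slope w t j|) := by
          rintro ⟨h5, _⟩
          have := cov_slope h5
          rw [hb.1] at this
          simp at this
        rw [if_pos rfl, if_neg hnc, zero_div, add_zero]
        exact W_mono hJ _ _
      · rw [if_neg hji, zero_add]
        split_ifs with h6
        · have hq : (((k + D₁ : ℕ)) : ℤ) + 3 ≤ |R109.GT.slope w t j| := by
            have := h6.2
            push_cast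
            omega
          exact W_high hw t (k + D₁) j (c' / 2) e h6.1 hq hc1 hc2
        · rw [zero_div]; exact W_nonneg _ _ _ _ _
    have hfin := hlow.trans hcell
    set V := W w' 0 0 ((e':ℝ) / 2 ^ D₁) (((e':ℝ) + 1) / 2 ^ D₁)
    have e1 : V / 2 ^ (t + k) = V * 2 ^ D₁ / 2 ^ (t + (k + D₁)) := by
      rw [← add_assoc, pow_add 2 (t + k) D₁]; field_simp
    have e2 : b / (8 * 2 ^ (t + (k + D₁))) = b / 8 / 2 ^ (t + (k + D₁)) := by field_simp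
    rw [e1, e2, ← add_div, div_le_div_iff_of_pos_right h2t] at hfin
    rw [le_div_iff₀ h2D]
    linarith
  have hR' : 0 ≤ R' := by
    have h7 := (W_nonneg w' 0 0 _ _).trans (claim 0 (by
      have : (0:ℤ) < 2 ^ D₁ := by positivity
      omega) (by
      have : (0:ℤ) < 2 ^ D₁ := by positivity
      omega))
    rwa [le_div_iff₀ h2D, zero_mul] at h7
  intro e'
  by_cases h8 : -2 * 2 ^ D₁ ≤ e' ∧ e' + 1 ≤ 2 * 2 ^ D₁
  · exact claim e' h8.1 h8.2
  · have hempty : {x : ℝ | x ∈ J 0 0 ∧ tak w' x ∈ Ico ((e':ℝ) / 2 ^ D₁) (((e':ℝ) + 1) / 2 ^ D₁)} = ∅ := by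
      ext x
      simp only [mem_ofPred_eq, mem_empty_iff_false, iff_false, not_and]
      rintro _ ⟨h9, h10⟩
      have hbd := bound w' hsw' x
      rw [abs_le] at hbd
      rw [div_le_iff₀ h2D] at h9
      rw [lt_div_iff₀ h2D] at h10
      apply h8
      have h11 : (-1:ℝ) * 2 ^ D₁ < (e':ℝ) + 1 := by nlinarith [hbd.1]
      have h12 : (e':ℝ) ≤ 1 * 2 ^ D₁ := by nlinarith [hbd.2]
      have h11' : (-1:ℤ) * 2 ^ D₁ < e' + 1 := by exact_mod_cast h11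
      have h12' : e' ≤ (1:ℤ) * 2 ^ D₁ := by exact_mod_cast h12
      have hp : (1:ℤ) ≤ 2 ^ D₁ := one_le_pow₀ (by norm_num)
      constructor <;> linarith
    unfold W
    rw [hempty, measureReal_empty]
    positivity

/-- there is no uniform bound at all scales -/
theorem no_uniform : ¬ ∃ R : ℝ, ∀ D, PP R D := by
  rintro ⟨R₀, hR₀⟩
  set A : Set ℝ := {R | ∀ D, PP R D} with hA
  have hne : A.Nonempty := ⟨R₀, hR₀⟩
  have hbdd : BddBelow A := ⟨0, fun R hR => by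
    obtain ⟨w, _, hw2⟩ := hR 0
    exact hw2.nonneg⟩
  set rs' := sInf A with hrs
  set δ : ℝ := 1 / 768 with hδ
  have hδ0 : 0 < δ := by rw [hδ]; norm_num
  have h1 : rs' - δ ∉ A := fun h => by
    have := csInf_le hbdd h
    linarith
  obtain ⟨D₁, hD₁⟩ : ∃ D₁, ¬ PP (rs' - δ) D₁ := by
    by_contra h
    push Not at h
    exact h1 h
  obtain ⟨R, hRA, hRlt⟩ := exists_lt_of_csInf_lt hne (show sInf A < rs' + δ by linarith)
  have hr : ∀ D, PP (rs' + δ) D := fun D => by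
    obtain ⟨w, hw1, hw2⟩ := hRA D
    exact ⟨w, hw1, hw2.mono hRlt.le⟩
  set r := rs' + δ with hrdef
  have hr0 : 0 ≤ r := by
    obtain ⟨w, _, hw2⟩ := hr 0
    exact hw2.nonneg
  set S : ℤ := (D₁:ℤ) + 10 with hS
  obtain ⟨μ, hμ⟩ := exists_nat_gt (2 * (20 * r * (1 + S)))
  obtain ⟨w, hw, hBd⟩ := hr (3 * μ ^ 2 + 8 + D₁)
  refine comb_contra hw r hr0 S (by omega) μ (by linarith) ?_ ?_
  · intro t ht c
    exact rs_le hw (hBd.of_le hw (by omega)) c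
  · intro t ht c' i hi hb
    have h2 := hi_bound hw (S := S) hBd (by omega) (by omega) hD₁ c' i hi hb
    have h3 : 8 * (r - (rs' - δ)) = 1 / 48 := by rw [hrdef, hδ]; ring
    rw [h3] at h2
    exact h2.le

end Pool.Agent.L0h88.TK
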