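import Pool.Agent.L0h88.TK.Comb2

/-! Mass of the values taken on dyadic nodes. -/

open MeasureTheory Set Filter Topology
open scoped ENNReal

namespace Pool.Agent.L0h88.TK

open R109.GT hiding slope
open scoped Classical

/-- measure of the points of the node `(n,j)` with value in `[a,b)` -/
noncomputable def W (w : ℕ → ℤ → ℤ) (n : ℕ) (j : ℤ) (a b : ℝ) : ℝ :=
  volume.real {x : ℝ | x ∈ J n j ∧ tak w x ∈ Ico a b}

theorem J_eq (n : ℕ) (j : ℤ) : J n j = Ico ((j : ℝ) / 2 ^ n) (((j : ℝ) + 1) / 2 ^ n) :=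
  PC.J_eq_Ico n j

theorem vol_J_ne_top (n : ℕ) (j : ℤ) : volume (J n j) ≠ ∞ := by
  rw [vol_J]; exact ENNReal.ofReal_ne_top

theorem W_set_meas {w : ℕ → ℤ → ℤ} (hw : Sgn w) (n : ℕ) (j : ℤ) (a b : ℝ) :
    MeasurableSet {x : ℝ | x ∈ J n j ∧ tak w x ∈ Ico a b} :=
  (PC.measurableSet_J n j).inter ((cont w hw).measurable measurableSet_Ico)

theorem W_set_ne_top (w : ℕ → ℤ → ℤ) (n : ℕ) (j : ℤ) (a b : ℝ) :
    volume {x : ℝ | x ∈ J n j ∧ tak w x ∈ Ico a b} ≠ ∞ :=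
  ne_top_of_le_ne_top (vol_J_ne_top n j) (measure_mono fun _ hx => hx.1)

theorem W_nonneg (w : ℕ → ℤ → ℤ) (n : ℕ) (j : ℤ) (a b : ℝ) : 0 ≤ W w n j a b :=
  measureReal_nonneg

theorem J_even (n : ℕ) (j : ℤ) : J (n + 1) (2 * j) ⊆ J n j := by
  intro x hx
  have h : ⌊(2:ℝ) ^ (n + 1) * x⌋ = 2 * j := hx
  show ⌊(2:ℝ) ^ n * x⌋ = j
  rw [floor_div n 1 x, h]; omega

theorem J_odd (n : ℕ) (j : ℤ) : J (n + 1) (2 * j + 1) ⊆ J n j := by
  intro x hx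
  have h : ⌊(2:ℝ) ^ (n + 1) * x⌋ = 2 * j + 1 := hx
  show ⌊(2:ℝ) ^ n * x⌋ = j
  rw [floor_div n 1 x, h]; omega

theorem J_union (n : ℕ) (j : ℤ) : J n j = J (n + 1) (2 * j) ∪ J (n + 1) (2 * j + 1) := by
  apply Subset.antisymm
  · intro x hx
    have h : ⌊(2:ℝ) ^ n * x⌋ = j := hx
    rw [floor_div n 1 x] at h
    show ⌊(2:ℝ) ^ (n + 1) * x⌋ = 2 * j ∨ ⌊(2:ℝ) ^ (n + 1) * x⌋ = 2 * j + 1
    omega
  · exact union_subset (J_even n j) (J_odd n j)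

theorem W_split {w : ℕ → ℤ → ℤ} (hw : Sgn w) (n : ℕ) (j : ℤ) (a b : ℝ) :
    W w n j a b = W w (n + 1) (2 * j) a b + W w (n + 1) (2 * j + 1) a b := by
  unfold W
  rw [← measureReal_union _ (W_set_meas hw _ _ _ _) (W_set_ne_top w _ _ _ _) (W_set_ne_top w _ _ _ _)]
  · congr 1
    ext x
    have h : x ∈ J n j ↔ x ∈ J (n + 1) (2 * j) ∨ x ∈ J (n + 1) (2 * j + 1) := by
      rw [J_union]; rfl
    simp only [mem_ofPred_eq, mem_union, h]
    tauto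
  · rw [Set.disjoint_left]
    rintro x ⟨h1, _⟩ ⟨h2, _⟩
    have h1' : ⌊(2:ℝ) ^ (n + 1) * x⌋ = 2 * j := h1
    have h2' : ⌊(2:ℝ) ^ (n + 1) * x⌋ = 2 * j + 1 := h2
    omega

theorem sum_W {w : ℕ → ℤ → ℤ} (hw : Sgn w) (n : ℕ) (a b : ℝ) :
    ∑ j ∈ nd n, W w n j a b = W w 0 0 a b := by
  induction n with
  | zero => rw [sum_nd_zero]
  | succ n ih =>
    rw [sum_nd_succ, ← ih]
    exact Finset.sum_congr rfl fun j _ => (W_split hw n j a b).symm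

theorem W_mono {w : ℕ → ℤ → ℤ} {n m : ℕ} {i j : ℤ} (h : J m i ⊆ J n j) (a b : ℝ) :
    W w m i a b ≤ W w n j a b := by
  unfold W
  exact measureReal_mono (fun x hx => ⟨h hx.1, hx.2⟩) (W_set_ne_top w _ _ _ _)

theorem W_add {w : ℕ → ℤ → ℤ} (hw : Sgn w) (n : ℕ) (j : ℤ) {a b c : ℝ} (hab : a ≤ b) (hbc : b ≤ c) :
    W w n j a c = W w n j a b + W w n j b c := by
  unfold W
  rw [← measureReal_union _ (W_set_meas hw _ _ _ _) (W_set_ne_top w _ _ _ _) (W_set_ne_top w _ _ _ _)]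
  · congr 1
    ext x
    have h : tak w x ∈ Ico a c ↔ tak w x ∈ Ico a b ∨ tak w x ∈ Ico b c := by
      rw [← Ico_union_Ico_eq_Ico hab hbc]; rfl
    simp only [mem_ofPred_eq, mem_union, h]
    tauto
  · rw [Set.disjoint_left]
    rintro x ⟨_, h1⟩ ⟨_, h2⟩
    exact absurd h1.2 (not_lt.mpr h2.1)

/-- every cell of level `D` has mass at most `R / 2^D` -/
def Bd (w : ℕ → ℤ → ℤ) (R : ℝ) (D : ℕ) : Prop :=
  ∀ e : ℤ, W w 0 0 ((e:ℝ) / 2 ^ D) (((e:ℝ) + 1) / 2 ^ D) ≤ R / 2 ^ D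

theorem Bd.mono {w : ℕ → ℤ → ℤ} {R R' : ℝ} {D : ℕ} (h : Bd w R D) (hR : R ≤ R') : Bd w R' D :=
  fun e => (h e).trans (by gcongr)

theorem Bd.nonneg {w : ℕ → ℤ → ℤ} {R : ℝ} {D : ℕ} (h : Bd w R D) : 0 ≤ R := by
  have := (W_nonneg w 0 0 _ _).trans (h 0)
  have h2 : (0:ℝ) < 2 ^ D := by positivity
  rwa [le_div_iff₀ h2, zero_mul] at this

theorem Bd.pred {w : ℕ → ℤ → ℤ} (hw : Sgn w) {R : ℝ} {D : ℕ} (h : Bd w R (D + 1)) : Bd w R D := by
  intro e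
  have h2 : (0:ℝ) < 2 ^ D := by positivity
  have h1 := h (2 * e)
  have h3 := h (2 * e + 1)
  have e1 : (((2 * e : ℤ)) : ℝ) / 2 ^ (D + 1) = (e:ℝ) / 2 ^ D := by
    push_cast; rw [pow_succ]; field_simp
  have e2 : ((((2 * e + 1 : ℤ)) : ℝ) + 1) / 2 ^ (D + 1) = ((e:ℝ) + 1) / 2 ^ D := by
    push_cast; rw [pow_succ]; field_simp; ring
  have e3 : ((((2 * e : ℤ)) : ℝ) + 1) / 2 ^ (D + 1) = (((2 * e + 1 : ℤ)) : ℝ) / 2 ^ (D + 1) := by
    push_cast; ring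
  rw [e1, e3] at h1
  rw [e2] at h3
  have hle1 : (e:ℝ) / 2 ^ D ≤ (((2 * e + 1 : ℤ)) : ℝ) / 2 ^ (D + 1) := by
    rw [← e1]; gcongr; simp
  have hle2 : (((2 * e + 1 : ℤ)) : ℝ) / 2 ^ (D + 1) ≤ ((e:ℝ) + 1) / 2 ^ D := by
    rw [← e2]; gcongr; simp
  rw [W_add hw 0 0 hle1 hle2]
  have e4 : R / 2 ^ D = R / 2 ^ (D + 1) + R / 2 ^ (D + 1) := by rw [pow_succ]; field_simp; ring
  rw [e4]
  exact add_le_add h1 h3

theorem Bd.of_le {w : ℕ → ℤ → ℤ} (hw : Sgn w) {R : ℝ} {D D' : ℕ} (h : Bd w R D) (hD : D' ≤ D) :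
    Bd w R D' := by
  induction D with
  | zero =>
    have : D' = 0 := by omega
    rw [this]; exact h
  | succ D ih =>
    rcases Nat.lt_or_ge D D' with h1 | h1
    · have : D' = D + 1 := by omega
      rw [this]; exact h
    · exact ih (h.pred hw) h1

theorem Bd.multi {w : ℕ → ℤ → ℤ} (hw : Sgn w) {R : ℝ} {D : ℕ} (h : Bd w R D) (e : ℤ) (k : ℕ) :
    W w 0 0 ((e:ℝ) / 2 ^ D) (((e:ℝ) + k) / 2 ^ D) ≤ k * R / 2 ^ D := by
  induction k with
  | zero =>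
    have : {x : ℝ | x ∈ J 0 0 ∧ tak w x ∈ Ico ((e:ℝ) / 2 ^ D) (((e:ℝ) + (0:ℕ)) / 2 ^ D)} = ∅ := by
      ext x
      simp
    unfold W
    rw [this]
    simp
  | succ k ih =>
    have h1 := h (e + k)
    have h2 : ((e:ℝ) + ((k + 1 : ℕ):ℝ)) / 2 ^ D = (((e + k : ℤ):ℝ) + 1) / 2 ^ D := by push_cast; ring
    have h3 : (((e + k : ℤ):ℝ)) / 2 ^ D = ((e:ℝ) + k) / 2 ^ D := by push_cast; ring
    rw [h3] at h1
    rw [h2, W_add hw 0 0 (b := ((e:ℝ) + k) / 2 ^ D)]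
    · push_cast at *
      have e4 : ((k:ℝ) + 1) * R / 2 ^ D = k * R / 2 ^ D + R / 2 ^ D := by ring
      rw [e4]
      exact add_le_add ih h1
    · gcongr; simp
    · push_cast
      exact div_le_div_of_nonneg_right (by linarith) (by positivity)

/-- scaling at a zero-slope node -/
theorem W_scale {w : ℕ → ℤ → ℤ} (hw : Sgn w) (n : ℕ) (j : ℤ) (hs : R109.GT.slope w n j = 0) (a b : ℝ) :
    W w n j (a / 2 ^ n) (b / 2 ^ n) =
      W (shf w n j) 0 0 (a - val w n j) (b - val w n j) / 2 ^ n := by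
  have h2 : (0:ℝ) < 2 ^ n := by positivity
  unfold W
  have hset : {x : ℝ | x ∈ J n j ∧ tak w x ∈ Ico (a / 2 ^ n) (b / 2 ^ n)} =
      (fun x : ℝ => (2:ℝ) ^ n * x) ⁻¹' ((fun u : ℝ => u + (-(j:ℝ))) ⁻¹'
        {u : ℝ | u ∈ J 0 0 ∧ tak (shf w n j) u ∈ Ico (a - val w n j) (b - val w n j)}) := by
    ext x
    simp only [mem_ofPred_eq, mem_preimage]
    have hJ : x ∈ J n j ↔ (2:ℝ) ^ n * x + (-(j:ℝ)) ∈ J 0 0 := by
      show ⌊(2:ℝ) ^ n * x⌋ = j ↔ ⌊(2:ℝ) ^ 0 * ((2:ℝ) ^ n * x + (-(j:ℝ)))⌋ = 0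
      rw [pow_zero, one_mul, ← sub_eq_add_neg, Int.floor_sub_intCast]
      omega
    rw [← hJ]
    refine and_congr_right fun hx => ?_
    have hx' : x ∈ Icc ((j:ℝ) / 2 ^ n) (((j:ℝ) + 1) / 2 ^ n) := by
      rw [J_eq] at hx; exact Ico_subset_Icc_self hx
    have h1 := tak_node hw n j x hx'
    have h3 : tak (fun m => w (n + m)) ((2:ℝ) ^ n * x) = tak (shf w n j) ((2:ℝ) ^ n * x + (-(j:ℝ))) := by
      rw [← tak_tail_add]
      congr 1
      ring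
    rw [h1, hs, h3, mem_Ico, mem_Ico, div_le_div_iff_of_pos_right h2, div_lt_div_iff_of_pos_right h2]
    push_cast
    constructor
    · rintro ⟨h4, h5⟩; constructor <;> linarith
    · rintro ⟨h4, h5⟩; constructor <;> linarith
  rw [hset]
  unfold Measure.real
  rw [Real.volume_preimage_mul_left h2.ne', measure_preimage_add_right, ENNReal.toReal_mul,
    ENNReal.toReal_ofReal (abs_nonneg _), abs_of_pos (inv_pos.mpr h2)]
  field_simp

/-- lower bound for the mass of a node near a covered cell -/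
theorem W_near {w : ℕ → ℤ → ℤ} (hw : Sgn w) (n : ℕ) (j c : ℤ) (h : cov w n j c) :
    1 / ((|R109.GT.slope w n j| : ℤ) : ℝ) ≤ 2 ^ n * W w n j (((c:ℝ) - 2) / 2 ^ n) (((c:ℝ) + 3) / 2 ^ n) := by
  have h2 : (0:ℝ) < 2 ^ n := by positivity
  -- it suffices to find an interval
  have key : ∀ α β : ℝ, 0 ≤ α → β ≤ 1 → β - α = 1 / ((|R109.GT.slope w n j| : ℤ) : ℝ) →
      (∀ u, α ≤ u → u < β → (c:ℝ) ≤ val w n j + R109.GT.slope w n j * u ∧ (val w n j : ℝ) + R109.GT.slope w n j * u ≤ c + 1) →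
      1 / ((|R109.GT.slope w n j| : ℤ) : ℝ) ≤ 2 ^ n * W w n j (((c:ℝ) - 2) / 2 ^ n) (((c:ℝ) + 3) / 2 ^ n) := by
    intro α β hα hβ hlen hin
    have hpos : (0:ℝ) < 1 / ((|R109.GT.slope w n j| : ℤ) : ℝ) := by
      have := cov_slope h
      have h' : (1:ℝ) ≤ ((|R109.GT.slope w n j| : ℤ) : ℝ) := by exact_mod_cast this
      positivity
    have hsub : Ico (((j:ℝ) + α) / 2 ^ n) (((j:ℝ) + β) / 2 ^ n) ⊆
        {x : ℝ | x ∈ J n j ∧ tak w x ∈ Ico (((c:ℝ) - 2) / 2 ^ n) (((c:ℝ) + 3) / 2 ^ n)} := by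
      intro x hx
      have hx1 := hx.1
      have hx2 := hx.2
      rw [div_le_iff₀ h2] at hx1
      rw [lt_div_iff₀ h2] at hx2
      have hJ : x ∈ J n j := by
        rw [J_eq, mem_Ico, div_le_iff₀ h2, lt_div_iff₀ h2]
        constructor <;> linarith
      have hx' : x ∈ Icc ((j:ℝ) / 2 ^ n) (((j:ℝ) + 1) / 2 ^ n) := by
        rw [J_eq] at hJ; exact Ico_subset_Icc_self hJ
      refine ⟨hJ, ?_⟩
      rw [tak_node hw n j x hx', mem_Ico, div_le_div_iff_of_pos_right h2, div_lt_div_iff_of_pos_right h2]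
      have hb := bound _ (sgn_tail hw n) ((2:ℝ) ^ n * x)
      rw [abs_le] at hb
      have := hin ((2:ℝ) ^ n * x - j) (by linarith) (by linarith)
      constructor <;> linarith [hb.1, hb.2, this.1, this.2]
    have hm := measureReal_mono (μ := volume) hsub (W_set_ne_top w _ _ _ _)
    rw [Real.volume_real_Ico_of_le (by gcongr; linarith)] at hm
    have e : ((j:ℝ) + β) / 2 ^ n - ((j:ℝ) + α) / 2 ^ n = (β - α) / 2 ^ n := by ring
    rw [e, hlen, div_le_iff₀ h2] at hm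
    unfold W
    linarith
  unfold cov at h
  rcases h with ⟨h3, h4⟩ | ⟨h3, h4⟩
  · have hs : 0 < R109.GT.slope w n j := by omega
    have hs' : (0:ℝ) < R109.GT.slope w n j := by exact_mod_cast hs
    have h3' : (val w n j : ℝ) ≤ c := by exact_mod_cast h3
    have h4' : (c:ℝ) + 1 ≤ val w n j + R109.GT.slope w n j := by exact_mod_cast h4
    refine key (((c:ℝ) - val w n j) / R109.GT.slope w n j) (((c:ℝ) + 1 - val w n j) / R109.GT.slope w n j) ?_ ?_ ?_ ?_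
    · apply div_nonneg <;> linarith
    · rw [div_le_one hs']; linarith
    · rw [abs_of_pos hs]; ring
    · intro u hu1 hu2
      rw [div_le_iff₀ hs'] at hu1
      rw [lt_div_iff₀ hs'] at hu2
      constructor <;> linarith
  · have hs : R109.GT.slope w n j < 0 := by omega
    have hs' : (R109.GT.slope w n j : ℝ) < 0 := by exact_mod_cast hs
    have h3' : (val w n j : ℝ) + R109.GT.slope w n j ≤ c := by exact_mod_cast h3
    have h4' : (c:ℝ) + 1 ≤ val w n j := by exact_mod_cast h4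
    refine key (((c:ℝ) + 1 - val w n j) / R109.GT.slope w n j) (((c:ℝ) - val w n j) / R109.GT.slope w n j) ?_ ?_ ?_ ?_
    · exact div_nonneg_of_nonpos (by linarith) hs'.le
    · rw [div_le_one_of_neg hs']; linarith
    · rw [abs_of_neg hs]
      push_cast
      rw [← sub_div, ← neg_div_neg_eq]
      congr 1
      ring
    · intro u hu1 hu2
      rw [div_le_iff_of_neg hs'] at hu1
      rw [lt_div_iff_of_neg hs'] at hu2
      constructor <;> linarith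

theorem rs_le {w : ℕ → ℤ → ℤ} (hw : Sgn w) {r : ℝ} {t : ℕ} (h : Bd w r t) (c : ℤ) :
    rs w t c ≤ 5 * r := by
  have h2 : (0:ℝ) < 2 ^ t := by positivity
  have h1 : rs w t c ≤ ∑ j ∈ nd t, 2 ^ t * W w t j (((c:ℝ) - 2) / 2 ^ t) (((c:ℝ) + 3) / 2 ^ t) := by
    unfold rs
    refine Finset.sum_le_sum fun j _ => ?_
    split_ifs with hc
    · exact W_near hw t j c hc
    · exact mul_nonneg h2.le (W_nonneg _ _ _ _ _)
  rw [← Finset.mul_sum, sum_W hw] at h1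
  have h3 := h.multi hw (c - 2) 5
  have e1 : (((c - 2 : ℤ)) : ℝ) / 2 ^ t = ((c:ℝ) - 2) / 2 ^ t := by push_cast; ring
  have e2 : ((((c - 2 : ℤ)) : ℝ) + (5:ℕ)) / 2 ^ t = ((c:ℝ) + 3) / 2 ^ t := by push_cast; ring
  rw [e1, e2, le_div_iff₀ h2] at h3
  push_cast at h3
  linarith

end Pool.Agent.L0h88.TK
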